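import Pool.Agent.UWT.Main

/-!
# UWT: the black box in final form

* `UWloc k X`: the Uryson width computed with maps which near each point are maps into a finite
  subcomplex (so they are continuous for every usual topology of the complex); `UW k X ≤ UWloc k X`.
* `Scl hs X`: the space `X` with the metric multiplied by `s > 0`.
* `final`: the black box with `UWloc 1 Q ≤ 1` and `n ≤ UW 1 X`.
-/

set_option autoImplicit false

open Set Metric Topology UW1
open scoped ENNReal

namespace UWT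

universe u

/-- The `k`-dimensional Uryson width, computed with maps which near each point are maps into a
finite subcomplex. -/
noncomputable def UWloc (k : ℕ) (X : Type u) [MetricSpace X] : ℝ≥0∞ :=
  sInf {ε | ∃ (V : Type u) (K : Complex V), K.DimLe k ∧ ∃ f : X → V → ℝ, Continuous f ∧
    (∀ x, f x ∈ K.real) ∧
    (∀ x, ∃ F : Set V, F.Finite ∧ ∀ᶠ y in 𝓝 x, ∀ v, v ∉ F → f y v = 0) ∧
    ∀ x y, f x = f y → edist x y ≤ ε}

theorem uw_le_uwloc (k : ℕ) (X : Type u) [MetricSpace X] : UW k X ≤ UWloc k X :=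
  sInf_le_sInf fun _ ⟨V, K, h1, f, h2, h3, _, h5⟩ => ⟨V, K, h1, f, h2, h3, h5⟩

section Upper

variable {V : Type u} {K : Complex V} [hK : Conn K]

open Classical in
/-- near each point the support stays in a finite set -/
theorem eventually_support (x : Pt K) :
    ∃ F : Finset V, ∀ᶠ y : Pt K in 𝓝 x, y.c.support ⊆ F := by
  obtain ⟨v, hv⟩ := x.exists_mem
  refine ⟨(hK.locfin v).toFinset.biUnion id, ?_⟩
  have h0 : 0 < x.c v / 2 := half_pos (x.pos hv)
  refine Filter.eventually_of_mem (Metric.ball_mem_nhds x h0) fun y hy => ?_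
  have h1 : cdist x y < x.c v / 2 := by
    rw [mem_ball, dist_comm] at hy
    exact (cdist_le_dist x y).trans_lt hy
  have h2 := abs_sub_le_cdist x y v
  have h3 : 0 < y.c v := by
    have := abs_lt.1 (h2.trans_lt (by linarith : 2 * cdist x y < x.c v))
    linarith [this.2]
  intro w hw
  rw [Finset.mem_biUnion]
  exact ⟨y.c.support, (hK.locfin v).mem_toFinset.2
    ⟨y.mem, Finsupp.mem_support_iff.2 h3.ne'⟩, hw⟩

open Classical in
theorem uwloc_le {T : Type u} (φ : V → T) (hφ : ∀ s ∈ K.faces, (s.image φ).card ≤ 2) (M : ℝ)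
    (hM : ∀ v w, φ v = φ w → dist (vtx K v) (vtx K w) ≤ M) :
    UWloc 1 (Pt K) ≤ ENNReal.ofReal (M + 2) := by
  refine sInf_le ⟨T, imC K φ, ?_, imF φ, ?_, fun x => imF_real φ x, fun x => ?_,
    fun x y h => ?_⟩
  · rintro _ ⟨s, hs, rfl⟩
    exact hφ s hs
  · refine continuous_pi fun τ => ?_
    refine (LipschitzWith.of_dist_le_mul (K := 2) fun x y => ?_).continuous
    rw [Real.dist_eq]
    refine (imF_sub φ x y τ).trans ?_
    have := cdist_le_dist x y
    change 2 * cdist x y ≤ 2 * dist x y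
    linarith
  · obtain ⟨F, hF⟩ := eventually_support x
    refine ⟨F.image φ, (F.image φ).finite_toSet, hF.mono fun y hy τ hτ => ?_⟩
    refine Finset.sum_eq_zero fun v hv => ?_
    rw [if_neg]
    rintro rfl
    exact hτ (Finset.mem_coe.2 (Finset.mem_image_of_mem φ (hy hv)))
  · obtain ⟨v, hv⟩ := x.exists_mem
    obtain ⟨w, hw, hwv⟩ := imF_fib φ h hv
    rw [edist_dist]
    refine ENNReal.ofReal_le_ofReal ?_
    have h1 := dist_le_one_of_adj (adj_vtx hv)
    have h2 := dist_le_one_of_adj (adj_vtx hw).symm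
    have h3 := hM v w hwv.symm
    have h4 := dist_triangle4 x (vtx K v) (vtx K w) y
    linarith

end Upper

section Scale

/-- The space `X` with the metric multiplied by `s`. -/
def Scl {s : ℝ} (_ : 0 < s) (X : Type u) : Type u := X

variable {s : ℝ} (hs : 0 < s) {X Q : Type u}

/-- the same point of `X` -/
def dn {s : ℝ} {hs : 0 < s} {X : Type u} (x : Scl hs X) : X := x

noncomputable instance [hX : MetricSpace X] : MetricSpace (Scl hs X) where
  dist x y := s * dist (dn x) (dn y)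
  dist_self x := by
    rw [dist_self, mul_zero]
  dist_comm x y := by
    rw [dist_comm]
  dist_triangle x y z := by
    rw [← mul_add]
    exact mul_le_mul_of_nonneg_left (dist_triangle (dn x) (dn y) (dn z)) hs.le
  toUniformSpace := (inferInstance : UniformSpace X)
  uniformity_dist := by
    have h := (@Metric.mk_uniformity_basis X _ ℝ (fun ε : ℝ => 0 < ε)
      (fun ε => ε / s) (fun ε hε => div_pos hε hs)
      (fun ε hε => ⟨ε * s, mul_pos hε hs, by
        rw [mul_div_cancel_right₀ _ hs.ne']⟩)).eq_biInf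
    refine h.trans (iInf_congr fun ε => iInf_congr fun hε => ?_)
    congr 1
    ext p
    change @dist X _ p.1 p.2 < ε / s ↔ s * @dist X _ p.1 p.2 < ε
    rw [lt_div_iff₀ hs, mul_comm]
  eq_of_dist_eq_zero {x y} h := by
    have h' : s * dist (dn x) (dn y) = 0 := h
    exact (@dist_eq_zero X _ (dn x) (dn y)).1 ((mul_eq_zero.1 h').resolve_left hs.ne')

theorem scl_dist [MetricSpace X] (x y : Scl hs X) : dist x y = s * dist (dn x) (dn y) := rfl

theorem scl_edist [MetricSpace X] (x y : Scl hs X) :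
    edist x y = ENNReal.ofReal s * edist (dn x) (dn y) := by
  rw [edist_dist, edist_dist, scl_dist, ENNReal.ofReal_mul hs.le]

theorem scl_compact [MetricSpace X] [h : CompactSpace X] : CompactSpace (Scl hs X) := h

theorem scl_sc [MetricSpace X] [h : SimplyConnectedSpace X] :
    SimplyConnectedSpace (Scl hs X) := h

theorem scl_covering [MetricSpace X] [MetricSpace Q] {p : Q → X} (h : IsCoveringMap p) :
    IsCoveringMap (X := Scl hs X) (E := Scl hs Q) p := h

theorem scl_geodesic [MetricSpace X] (h : Geodesic X) : Geodesic (Scl hs X) := by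
  intro a b
  obtain ⟨γ, hγ⟩ := h (dn a) (dn b)
  have key : ∀ t ∈ Icc (0 : ℝ) (s * dist (dn a) (dn b)),
      t / s ∈ Icc (0 : ℝ) (dist (dn a) (dn b)) := by
    intro t ht
    refine ⟨div_nonneg ht.1 hs.le, ?_⟩
    rw [div_le_iff₀ hs, mul_comm]
    exact ht.2
  refine ⟨fun t => γ (t / s), dist_nonneg, ?_, ?_, fun u hu t ht => ?_⟩
  · change γ (0 / s) = dn a
    rw [zero_div, hγ.start]
  · change γ (s * dist (dn a) (dn b) / s) = dn b
    rw [mul_div_cancel_left₀ _ hs.ne', hγ.finish]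
  · change s * dist (γ (u / s)) (γ (t / s)) = |u - t|
    rw [hγ.isom _ (key u hu) _ (key t ht), ← sub_div, abs_div, abs_of_pos hs,
      mul_div_cancel₀ _ hs.ne']

theorem scl_locIso [MetricSpace X] [MetricSpace Q] {p : Q → X} (h : LocIso p) :
    LocIso (Q := Scl hs Q) (X := Scl hs X) p := by
  intro z
  obtain ⟨r, hr, h1⟩ := h (dn z)
  have key : ∀ y : Scl hs Q, y ∈ ball z (s * r) → dn y ∈ ball (dn z) r := by
    intro y hy
    have : s * dist (dn y) (dn z) < s * r := hy
    exact (mul_lt_mul_iff_right₀ hs).1 this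
  refine ⟨s * r, mul_pos hs hr, fun y hy y' hy' => ?_⟩
  change s * dist (p (dn y)) (p (dn y')) = s * dist (dn y) (dn y')
  rw [h1 _ (key y hy) _ (key y' hy')]

theorem scl_uwloc [MetricSpace X] (k : ℕ) {a : ℝ≥0∞} (h : UWloc k X ≤ a) :
    UWloc k (Scl hs X) ≤ ENNReal.ofReal s * a := by
  have h0 : ENNReal.ofReal s ≠ 0 := by simpa using hs
  have h1 : UWloc k (Scl hs X) ≤ ENNReal.ofReal s * UWloc k X := by
    rw [mul_comm, ← ENNReal.div_le_iff h0 ENNReal.ofReal_ne_top]
    refine le_sInf ?_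
    rintro ε ⟨V, K, h1, f, h2, h3, h4, h5⟩
    rw [ENNReal.div_le_iff h0 ENNReal.ofReal_ne_top, mul_comm]
    refine sInf_le ⟨V, K, h1, f, h2, h3, h4, fun x y hxy => ?_⟩
    rw [scl_edist hs]
    exact mul_le_mul_right (h5 (dn x) (dn y) hxy) _
  exact h1.trans (mul_le_mul_right h _)

theorem scl_uw [MetricSpace X] (k : ℕ) {a : ℝ≥0∞} (h : a ≤ UW k X) :
    ENNReal.ofReal s * a ≤ UW k (Scl hs X) := by
  refine le_sInf ?_
  rintro ε ⟨V, K, h1, f, h2, h3, h5⟩
  have h6 : UW k X ≤ ENNReal.ofReal s⁻¹ * ε := by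
    refine sInf_le ⟨V, K, h1, f, h2, h3, fun x y hxy => ?_⟩
    have h7 : ENNReal.ofReal s * edist x y ≤ ε := by
      have := h5 x y hxy
      exact (scl_edist hs (X := X) x y).symm.trans_le this
    have h8 := mul_le_mul_right h7 (ENNReal.ofReal s⁻¹)
    rwa [← mul_assoc, ← ENNReal.ofReal_mul (inv_nonneg.2 hs.le), inv_mul_cancel₀ hs.ne',
      ENNReal.ofReal_one, one_mul] at h8
  have h9 := mul_le_mul_right (h.trans h6) (ENNReal.ofReal s)
  rwa [← mul_assoc, ← ENNReal.ofReal_mul hs.le, mul_inv_cancel₀ hs.ne', ENNReal.ofReal_one,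
    one_mul] at h9

end Scale

open Classical in
/-- The black box, final form. -/
theorem final {V' V T : Type u} [Finite V] [Nonempty V'] (K' : Complex V') (K : Complex V)
    [Conn K'] [Conn K] (hc : CohTrivial K') {p : V' → V}
    (hp : IsCov K' K p) (φ : V' → T) (hφ : ∀ s ∈ K'.faces, (s.image φ).card ≤ 2) (M : ℕ)
    (hM : ∀ v w, φ v = φ w → Near K' M v w) (n : ℕ)
    (hR : ¬ HasLabel (Pt K) ((n : ℝ) * (M + 2))) :
    ∃ (X Q : Type u) (_ : MetricSpace X) (_ : MetricSpace Q) (π : Q → X),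
      CompactSpace X ∧ Geodesic X ∧ SimplyConnectedSpace Q ∧ Geodesic Q ∧ IsCoveringMap π ∧
      LocIso π ∧ UWloc 1 Q ≤ 1 ∧ (n : ℝ≥0∞) ≤ UW 1 X := by
  obtain ⟨h1, h2, h3, h4, h5, h6, _, h8⟩ := main K' K hc hp φ hφ M hM _ hR
  have h7 : UWloc 1 (Pt K') ≤ ENNReal.ofReal (M + 2) :=
    uwloc_le φ hφ M fun v w h => dist_le_of_near (hM v w h)
  have hM0 : (0 : ℝ) < M + 2 := by positivity
  have hs : (0 : ℝ) < (M + 2 : ℝ)⁻¹ := inv_pos.2 hM0
  refine ⟨Scl hs (Pt K), Scl hs (Pt K'), inferInstance, inferInstance, push hp,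
    scl_compact hs, scl_geodesic hs h2, scl_sc hs, scl_geodesic hs h4, scl_covering hs h5,
    scl_locIso hs h6, ?_, ?_⟩
  · have := scl_uwloc hs 1 h7
    rwa [← ENNReal.ofReal_mul hs.le, inv_mul_cancel₀ hM0.ne', ENNReal.ofReal_one] at this
  · have := scl_uw hs 1 h8
    rw [← ENNReal.ofReal_mul hs.le, mul_comm, mul_assoc, mul_inv_cancel₀ hM0.ne', mul_one,
      ENNReal.ofReal_natCast] at this
    exact this

end UWT
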