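import Pool.Agent.UWT.Defs

/-!
# UWT: simplicial coverings and the induced map of the realizations
-/

set_option autoImplicit false

open Set Metric Topology UW1

namespace UWT

universe u

variable {V' V : Type u}

open Classical in
/-- `p : V' → V` is a simplicial covering of complexes: it is injective on faces, maps faces to
faces, and faces lift uniquely when one vertex of the lift is prescribed. -/
structure IsCov (K' : Complex V') (K : Complex V) (p : V' → V) : Prop where
  inj : ∀ s ∈ K'.faces, Set.InjOn p s
  map : ∀ s ∈ K'.faces, s.image p ∈ K.faces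
  lift : ∀ (v : V'), ∀ s ∈ K.faces, p v ∈ s → ∃ s' ∈ K'.faces, v ∈ s' ∧ s'.image p = s
  uniq : ∀ (v : V'), ∀ s ∈ K'.faces, ∀ s' ∈ K'.faces, v ∈ s → v ∈ s' →
    s.image p = s'.image p → s = s'

variable {K' : Complex V'} {K : Complex V} {p : V' → V}

open Classical in
theorem IsCov.support_push (hp : IsCov K' K p) (x : Pt K') :
    (Finsupp.mapDomain p x.c).support = x.c.support.image p :=
  Finsupp.mapDomain_support_of_injOn _ (hp.inj _ x.mem)

theorem IsCov.push_apply (hp : IsCov K' K p) (x : Pt K') {v : V'} (hv : v ∈ x.c.support) :
    Finsupp.mapDomain p x.c (p v) = x.c v :=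
  Finsupp.mapDomain_apply' (x.c.support : Set V') x.c subset_rfl (hp.inj _ x.mem) hv

/-- The map of realizations induced by a simplicial covering. -/
noncomputable def push (hp : IsCov K' K p) (x : Pt K') : Pt K :=
  mkPt (Finsupp.mapDomain p x.c) (by
    rw [hp.support_push x]
    exact hp.map _ x.mem) (fun v => by
    classical
    by_cases hv : v ∈ (Finsupp.mapDomain p x.c).support
    · rw [hp.support_push x] at hv
      obtain ⟨w, hw, rfl⟩ := Finset.mem_image.1 hv
      rw [hp.push_apply x hw]
      exact x.nonneg w
    · rw [Finsupp.notMem_support_iff.1 hv]) (by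
    classical
    rw [hp.support_push x, Finset.sum_image (hp.inj _ x.mem), ← x.sum_one]
    exact Finset.sum_congr rfl fun v hv => hp.push_apply x hv)

theorem push_c (hp : IsCov K' K p) (x : Pt K') : (push hp x).c = Finsupp.mapDomain p x.c :=
  mkPt_c _ _ _ _

open Classical in
theorem push_support (hp : IsCov K' K p) (x : Pt K') :
    (push hp x).c.support = x.c.support.image p := by
  rw [push_c]
  exact hp.support_push x

theorem push_val (hp : IsCov K' K p) (x : Pt K') {v : V'} (hv : v ∈ x.c.support) :
    (push hp x).c (p v) = x.c v := by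
  rw [push_c]
  exact hp.push_apply x hv

end UWT
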