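import Pool.Agent.UWT.CovDefs

/-!
# UWT package CovLift: pushing and lifting chains

PROOF of `adj_push`: a common face `s` of `x`, `y` maps to the common face `s.image p`
(`push_support`, `IsCov.map`).

PROOF of `cdist_push`. Let `s` be a common face; `p` is injective on `s`. For `v ∈ s`,
`(push hp x).c (p v) = x.c v` (also if `v ∉ x.c.support`: both are zero, because `p v` is not in
the image of the support, by injectivity on `s`). Now
`cdist (push hp x) (push hp y) = (∑ w ∈ s.image p, |…|) / 2 = (∑ v ∈ s, |x.c v - y.c v|) / 2`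
(`nrm_eq`, `Finset.sum_image`). (Or: `Finsupp.mapDomain` of the difference, `Finsupp.mapDomain_sub`
/ additivity, and `Finsupp.mapDomain_support_of_injOn`.)

PROOF of `ch_push`: induction with `adj_push`, `cdist_push`.

PROOF of `lift_adj`. Let `s` be a face containing the supports of `push hp x` and `y`; choose
`v ∈ x.c.support`; `p v ∈ s`. Take `s'` from `IsCov.lift v s`. First `x.c.support ⊆ s'`: let
`t = s'.filter (p · ∈ (x.c.support).image p)`, a nonempty (contains `v`) subset of `s'`, so a face,
and its image under `p` is `(x.c.support).image p` (`⊆ s = s'.image p`); by `IsCov.uniq`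
`t = x.c.support`. Define `y'` with coordinates `y'.c w = y.c (p w)` for `w ∈ s'` and `0`
elsewhere (`Finsupp.onFinset` or `Finsupp.filter`/`indicator`). Its support is
`s'.filter (p · ∈ y.c.support)`, a nonempty subset of `s'`; the sum is `1` by `Finset.sum_image`
(injectivity on `s'`, `s'.image p = s ⊇ y.c.support`). `push hp y' = y`: both are supported in
`s = s'.image p` and agree at `p w`, `w ∈ s'`.

PROOF of `lift_ch`: induction on the chain with `lift_adj` and `cdist_push` (generalize the
starting point: for all `x'` with `push hp x' = x`).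

PROOF of `fiber_sep`. If `v ∈ x.c.support ∩ x'.c.support` then the two supports are faces
containing `v` with the same image (`push_support`), hence equal by `IsCov.uniq`, and then
`x.c w = (push hp x).c (p w) = (push hp x').c (p w) = x'.c w` on the support, so `x = x'`. So the
supports are disjoint and `cdist x x' = (∑ x.c + ∑ x'.c) / 2 = 1`.
-/

set_option autoImplicit false

open Set Metric Topology UW1

namespace UWT

universe u

variable {V' V : Type u} {K' : Complex V'} {K : Complex V} {p : V' → V}

private theorem push_val' (hp : IsCov K' K p) (x : Pt K') {s : Finset V'} (hs : s ∈ K'.faces)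
    (hx : x.c.support ⊆ s) {v : V'} (hv : v ∈ s) : (push hp x).c (p v) = x.c v :=
  Finsupp.mapDomain_apply' (s : Set V') x.c (Finset.coe_subset.2 hx) (hp.inj s hs) hv

theorem adj_push (hp : IsCov K' K p) {x y : Pt K'} (h : Adj x y) :
    Adj (push hp x) (push hp y) := by
  classical
  obtain ⟨s, hs, h1, h2⟩ := h
  refine ⟨s.image p, hp.map s hs, ?_, ?_⟩
  · rw [push_support]
    exact Finset.image_subset_image h1
  · rw [push_support]
    exact Finset.image_subset_image h2

theorem cdist_push (hp : IsCov K' K p) {x y : Pt K'} (h : Adj x y) :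
    cdist (push hp x) (push hp y) = cdist x y := by
  classical
  obtain ⟨s, hs, h1, h2⟩ := h
  have e1 : ((push hp x).c - (push hp y).c).support ⊆ s.image p := by
    refine Finsupp.support_sub.trans (Finset.union_subset ?_ ?_)
    · rw [push_support]
      exact Finset.image_subset_image h1
    · rw [push_support]
      exact Finset.image_subset_image h2
  have e2 : (x.c - y.c).support ⊆ s := Finsupp.support_sub.trans (Finset.union_subset h1 h2)
  unfold cdist
  rw [nrm_eq _ e1, nrm_eq _ e2, Finset.sum_image (hp.inj s hs)]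
  congr 1
  refine Finset.sum_congr rfl fun v hv => ?_
  rw [Finsupp.sub_apply, Finsupp.sub_apply, push_val' hp x hs h1 hv, push_val' hp y hs h2 hv]

theorem ch_push (hp : IsCov K' K p) {x y : Pt K'} {ℓ : ℝ} (h : Ch x y ℓ) :
    Ch (push hp x) (push hp y) ℓ := by
  induction h with
  | nil x => exact Ch.nil _
  | cons h _ ih =>
    rw [← cdist_push hp h]
    exact Ch.cons (adj_push hp h) ih

theorem lift_adj (hp : IsCov K' K p) (x : Pt K') (y : Pt K) (h : Adj (push hp x) y) :
    ∃ y', Adj x y' ∧ push hp y' = y := by
  classical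
  obtain ⟨s, hs, h1, h2⟩ := h
  rw [push_support] at h1
  obtain ⟨v, hv⟩ := x.exists_mem
  have hpv : p v ∈ s := h1 (Finset.mem_image_of_mem p hv)
  obtain ⟨s', hs', hvs', himg⟩ := hp.lift v s hs hpv
  have hxs : x.c.support ⊆ s' := by
    have ht : (s'.filter fun w => p w ∈ x.c.support.image p).image p = x.c.support.image p := by
      ext u
      constructor
      · intro hu
        obtain ⟨w, hw, rfl⟩ := Finset.mem_image.1 hu
        exact (Finset.mem_filter.1 hw).2
      · intro hu
        have h3 : u ∈ s'.image p := by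
          rw [himg]
          exact h1 hu
        obtain ⟨w, hw, rfl⟩ := Finset.mem_image.1 h3
        exact Finset.mem_image_of_mem p (Finset.mem_filter.2 ⟨hw, hu⟩)
    have hvt : v ∈ s'.filter fun w => p w ∈ x.c.support.image p :=
      Finset.mem_filter.2 ⟨hvs', Finset.mem_image_of_mem p hv⟩
    have htf := K'.down_closed s' hs' _
      (Finset.filter_subset (fun w => p w ∈ x.c.support.image p) s') ⟨v, hvt⟩
    have h4 := hp.uniq v _ htf x.c.support x.mem hvt hv ht
    rw [← h4]
    exact Finset.filter_subset _ _
  have hval : ∀ w, Finsupp.onFinset s' (fun w => if w ∈ s' then y.c (p w) else 0)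
      (fun w hw => by
        by_contra h5
        exact hw (if_neg h5)) w = if w ∈ s' then y.c (p w) else 0 := fun w => rfl
  set c' : V' →₀ ℝ := Finsupp.onFinset s' (fun w => if w ∈ s' then y.c (p w) else 0)
      (fun w hw => by
        by_contra h5
        exact hw (if_neg h5)) with hc'
  have hsub : c'.support ⊆ s' := Finsupp.support_onFinset_subset
  have hne : c'.support.Nonempty := by
    obtain ⟨u, hu⟩ := y.exists_mem
    have h3 : u ∈ s'.image p := by
      rw [himg]
      exact h2 hu
    obtain ⟨w, hw, rfl⟩ := Finset.mem_image.1 h3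
    refine ⟨w, Finsupp.mem_support_iff.2 ?_⟩
    rw [hval, if_pos hw]
    exact Finsupp.mem_support_iff.1 hu
  have hsum : ∑ w ∈ c'.support, c' w = 1 := by
    have e1 : ∑ w ∈ c'.support, c' w = ∑ w ∈ s', c' w :=
      Finset.sum_subset hsub fun w _ hw => Finsupp.notMem_support_iff.1 hw
    have e2 : ∑ w ∈ s', c' w = ∑ w ∈ s', y.c (p w) := by
      refine Finset.sum_congr rfl fun w hw => ?_
      rw [hval, if_pos hw]
    have e3 : ∑ w ∈ s', y.c (p w) = ∑ u ∈ s'.image p, y.c u :=
      (Finset.sum_image (hp.inj s' hs')).symm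
    rw [e1, e2, e3, himg]
    exact y.sum_eq h2
  obtain ⟨y', hy'c⟩ : ∃ y' : Pt K', y'.c = c' :=
    ⟨mkPt c' (K'.down_closed s' hs' _ hsub hne) (fun w => by
        rw [hval]
        split_ifs
        · exact y.nonneg _
        · exact le_rfl) hsum, mkPt_c _ _ _ _⟩
  have hsub' : y'.c.support ⊆ s' := by rwa [hy'c]
  refine ⟨y', ⟨s', hs', hxs, hsub'⟩, Pt.ext (Finsupp.ext fun u => ?_)⟩
  by_cases hu : u ∈ s
  · rw [← himg] at hu
    obtain ⟨w, hw, rfl⟩ := Finset.mem_image.1 hu
    rw [push_val' hp y' hs' hsub' hw, hy'c, hval, if_pos hw]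
  · have h5 : u ∉ (push hp y').c.support := by
      rw [push_support]
      intro h6
      exact hu (himg ▸ Finset.image_subset_image hsub' h6)
    have h6 : u ∉ y.c.support := fun h => hu (h2 h)
    rw [Finsupp.notMem_support_iff.1 h5, Finsupp.notMem_support_iff.1 h6]

theorem lift_ch (hp : IsCov K' K p) (x : Pt K') (y : Pt K) {ℓ : ℝ} (h : Ch (push hp x) y ℓ) :
    ∃ y', Ch x y' ℓ ∧ push hp y' = y := by
  generalize hx : push hp x = z at h
  induction h generalizing x with
  | nil z => exact ⟨x, Ch.nil x, hx⟩
  | cons h1 _ ih =>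
    subst hx
    obtain ⟨y', h2, h3⟩ := lift_adj hp x _ h1
    obtain ⟨z', h4, h5⟩ := ih y' h3
    refine ⟨z', ?_, h5⟩
    rw [← h3, cdist_push hp h2]
    exact Ch.cons h2 h4

theorem fiber_sep (hp : IsCov K' K p) {x x' : Pt K'} (h : push hp x = push hp x')
    (hne : x ≠ x') : cdist x x' = 1 := by
  classical
  have himg : x.c.support.image p = x'.c.support.image p := by
    rw [← push_support hp x, ← push_support hp x', h]
  have hdis : Disjoint x.c.support x'.c.support := by
    rw [Finset.disjoint_left]
    intro v hv hv'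
    have hs := hp.uniq v _ x.mem _ x'.mem hv hv' himg
    refine hne (Pt.ext (Finsupp.ext fun w => ?_))
    by_cases hw : w ∈ x.c.support
    · have hw' : w ∈ x'.c.support := hs ▸ hw
      rw [← push_val hp x hw, ← push_val hp x' hw', h]
    · have hw' : w ∉ x'.c.support := hs ▸ hw
      rw [Finsupp.notMem_support_iff.1 hw, Finsupp.notMem_support_iff.1 hw']
  unfold cdist
  rw [nrm_eq (x.c - x'.c) (s := x.c.support ∪ x'.c.support) Finsupp.support_sub,
    Finset.sum_union hdis]
  have e1 : ∑ v ∈ x.c.support, |(x.c - x'.c) v| = 1 := by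
    rw [← x.sum_one]
    refine Finset.sum_congr rfl fun v hv => ?_
    rw [Finsupp.sub_apply, Finsupp.notMem_support_iff.1 (Finset.disjoint_left.1 hdis hv),
      sub_zero, abs_of_nonneg (x.nonneg v)]
  have e2 : ∑ v ∈ x'.c.support, |(x.c - x'.c) v| = 1 := by
    rw [← x'.sum_one]
    refine Finset.sum_congr rfl fun v hv => ?_
    rw [Finsupp.sub_apply, Finsupp.notMem_support_iff.1 (Finset.disjoint_right.1 hdis hv),
      zero_sub, abs_neg, abs_of_nonneg (x'.nonneg v)]
  rw [e1, e2]
  norm_num

end UWT
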