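import Pool.Agent.UW1.Local

/-!
# UWT package MetCov: metric covering maps

Hypotheses: `p : Q → X` is 1-Lipschitz (`h1`), points of `X` lift with almost no loss of distance
(`h2`), and different points of a fibre have distance at least `4 r` (`h3`), `r > 0`.

PROOF of `locIso_of_lift`. Take the ball of radius `r` around `z`; `y, y'` in it. `≤` is `h1`. If
`dist (p y) (p y') < dist y y'` take `ε = dist y y' - dist (p y) (p y')` and a lift `y''` of
`p y'` with `dist y y'' < dist y y'` (`h2`). Then `y'' ≠ y'` and
`dist y'' y' < 2 dist y y' < 4 r`, contradiction to `h3`.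

PROOF of `isCoveringMap_of_lift`. Let `x : X`, `U = ball x r`, `I = p ⁻¹' {x}` (discrete because
of `h3`; `DiscreteTopology` e.g. from `discreteTopology_of_isOpen_singleton` /
`DiscreteTopology.of_forall_le_dist`). For `z` with `p z ∈ U` there is a unique `y = c z ∈ I` with
`dist z y < r`: existence from `h2` with `ε = r - dist (p z) x`, uniqueness from `h3`. For
`b ∈ U`, `y ∈ I` there is a unique `z = s b y` with `p z = b` and `dist y z < r` (same
argument). So `z ↦ (p z, c z)` and `(b, y) ↦ s b y` are inverse bijections between `p ⁻¹' U` and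
`U × I`. Continuity of `c` : locally constant, because `dist z' (c z) < r` for `z'` near `z`.
Continuity of `s`: at `(b, y)`, for `b'` near `b` (and the same `y`, `I` is discrete) a lift `z'`
of `b'` with `dist (s b y) z' < dist b b' + ε` satisfies `dist y z' < r`, so `z' = s b' y`; hence
`dist (s b y) (s b' y) ≤ dist b b'`. `p ⁻¹' U` is open as `p` is continuous. This gives
`IsEvenlyCovered p x (p ⁻¹' {x})`.
-/

set_option autoImplicit false

open Set Metric Topology UW1

namespace UWT

universe u

variable {Q X : Type u} [MetricSpace Q] [MetricSpace X] (p : Q → X) (r : ℝ)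

private theorem iso_near (hr : 0 < r) (h1 : ∀ y z, dist (p y) (p z) ≤ dist y z)
    (h2 : ∀ (y : Q) (b : X) (ε : ℝ), 0 < ε → ∃ z, p z = b ∧ dist y z < dist (p y) b + ε)
    (h3 : ∀ y z, p y = p z → y ≠ z → 4 * r ≤ dist y z) (y z : Q) (h : dist y z < 2 * r) :
    dist (p y) (p z) = dist y z := by
  refine le_antisymm (h1 y z) (not_lt.1 fun hlt => ?_)
  obtain ⟨w, hw1, hw2⟩ := h2 y (p z) (dist y z - dist (p y) (p z)) (by linarith)
  have hw3 : dist y w < dist y z := by linarith
  have hne : w ≠ z := by
    rintro rfl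
    exact lt_irrefl _ hw3
  have h4 := h3 w z hw1 hne
  have h5 := dist_triangle w y z
  rw [dist_comm w y] at h5
  linarith

theorem locIso_of_lift (hr : 0 < r) (h1 : ∀ y z, dist (p y) (p z) ≤ dist y z)
    (h2 : ∀ (y : Q) (b : X) (ε : ℝ), 0 < ε → ∃ z, p z = b ∧ dist y z < dist (p y) b + ε)
    (h3 : ∀ y z, p y = p z → y ≠ z → 4 * r ≤ dist y z) : LocIso p := by
  intro z
  refine ⟨r, hr, fun y hy y' hy' => ?_⟩
  rw [mem_ball] at hy hy'
  refine iso_near p r hr h1 h2 h3 y y' ?_
  have h5 := dist_triangle_right y y' z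
  linarith

theorem isCoveringMap_of_lift (hr : 0 < r) (h1 : ∀ y z, dist (p y) (p z) ≤ dist y z)
    (h2 : ∀ (y : Q) (b : X) (ε : ℝ), 0 < ε → ∃ z, p z = b ∧ dist y z < dist (p y) b + ε)
    (h3 : ∀ y z, p y = p z → y ≠ z → 4 * r ≤ dist y z) : IsCoveringMap p := by
  classical
  intro x
  have hiso := iso_near p r hr h1 h2 h3
  have huniq : ∀ (y z z' : Q), dist y z < r → dist y z' < r → p z = p z' → z = z' := by
    intro y z z' hz hz' he
    by_contra hne
    have h4 := h3 z z' he hne
    have h5 := dist_triangle_left z z' y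
    linarith
  have hex : ∀ (y : Q) (b : X), dist (p y) b < r → ∃ z, p z = b ∧ dist y z < r := by
    intro y b hb
    obtain ⟨z, hz1, hz2⟩ := h2 y b (r - dist (p y) b) (by linarith)
    exact ⟨z, hz1, by linarith⟩
  have hdisc : DiscreteTopology (p ⁻¹' {x}) := by
    refine DiscreteTopology.of_forall_le_dist (r := 4 * r) (by linarith) ?_
    intro y z hyz
    refine h3 y z ?_ fun h => hyz (Subtype.ext h)
    rw [show p y = x from y.2, show p z = x from z.2]
  have hcont : Continuous p := by
    rw [Metric.continuous_iff]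
    intro b ε hε
    exact ⟨ε, hε, fun a ha => lt_of_le_of_lt (h1 a b) ha⟩
  -- the projection to the fibre
  have hc : ∀ z : p ⁻¹' (ball x r), ∃ y, p y = x ∧ dist (z : Q) y < r := fun z =>
    hex z x (mem_ball.1 z.2)
  choose c hc1 hc2 using hc
  -- the section
  have hs : ∀ q : (ball x r) × (p ⁻¹' {x}), ∃ z, p z = q.1 ∧ dist (q.2 : Q) z < r := by
    intro q
    refine hex q.2 q.1 ?_
    rw [show p q.2 = x from q.2.2, dist_comm]
    exact mem_ball.1 q.1.2
  choose s hs1 hs2 using hs
  refine ⟨hdisc, ball x r, mem_ball_self hr, isOpen_ball, isOpen_ball.preimage hcont, ?_⟩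
  let H : (p ⁻¹' (ball x r)) ≃ₜ (ball x r) × (p ⁻¹' {x}) :=
    { toFun := fun z => (⟨p z, z.2⟩, ⟨c z, hc1 z⟩)
      invFun := fun q => ⟨s q, by
        change p (s q) ∈ ball x r
        rw [hs1 q]
        exact q.1.2⟩
      left_inv := by
        intro z
        apply Subtype.ext
        exact huniq (c z) (s (⟨p z, z.2⟩, ⟨c z, hc1 z⟩)) z (hs2 (⟨p z, z.2⟩, ⟨c z, hc1 z⟩))
          (by rw [dist_comm]; exact hc2 z) (hs1 (⟨p z, z.2⟩, ⟨c z, hc1 z⟩))
      right_inv := by
        intro q
        have hm : p (s q) ∈ ball x r := by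
          rw [hs1 q]
          exact q.1.2
        refine Prod.ext (Subtype.ext (hs1 q)) (Subtype.ext ?_)
        exact huniq (s q) (c ⟨s q, hm⟩) q.2 (hc2 ⟨s q, hm⟩) (by rw [dist_comm]; exact hs2 q)
          ((hc1 ⟨s q, hm⟩).trans q.2.2.symm)
      continuous_toFun := by
        rw [Metric.continuous_iff]
        intro z0 ε hε
        refine ⟨min ε (r - dist (z0 : Q) (c z0)), lt_min hε (by linarith [hc2 z0]), ?_⟩
        intro z hz
        have hz' : dist (z : Q) z0 < min ε (r - dist (z0 : Q) (c z0)) := hz
        have hce : c z = c z0 := by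
          refine huniq z _ _ (hc2 z) ?_ ((hc1 z).trans (hc1 z0).symm)
          have h5 := dist_triangle (z : Q) z0 (c z0)
          have h6 := lt_of_lt_of_le hz' (min_le_right _ _)
          linarith
        rw [Prod.dist_eq]
        refine max_lt ?_ ?_
        · exact lt_of_le_of_lt (h1 z z0) (lt_of_lt_of_le hz' (min_le_left _ _))
        · change dist (c z) (c z0) < ε
          rw [hce, dist_self]
          exact hε
      continuous_invFun := by
        rw [Metric.continuous_iff]
        intro q0 ε hε
        refine ⟨min ε (4 * r), lt_min hε (by linarith), ?_⟩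
        intro q hq
        rw [Prod.dist_eq] at hq
        have hq1 : dist (q.1 : X) q0.1 < ε :=
          lt_of_le_of_lt (le_max_left _ _) (lt_of_lt_of_le hq (min_le_left _ _))
        have hq2 : dist (q.2 : Q) q0.2 < 4 * r :=
          lt_of_le_of_lt (le_max_right _ _) (lt_of_lt_of_le hq (min_le_right _ _))
        have he : (q.2 : Q) = q0.2 := by
          by_contra hne
          have h4 := h3 q.2 q0.2 (by
            rw [show p q.2 = x from q.2.2, show p q0.2 = x from q0.2.2]) hne
          linarith
        change dist (s q) (s q0) < ε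
        have h5 : dist (s q) (s q0) < 2 * r := by
          have h6 := dist_triangle_left (s q) (s q0) q0.2
          have h7 := hs2 q
          rw [he] at h7
          have h8 := hs2 q0
          linarith
        rw [← hiso _ _ h5, hs1, hs1]
        exact hq1 }
  exact ⟨H, fun z => rfl⟩

end UWT
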