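import Pool.Agent.UWT.CovLift
import Pool.Agent.UWT.MetCov

/-!
# UWT: a simplicial covering induces a covering map which is a local isometry
-/

set_option autoImplicit false

open Set Metric Topology UW1

namespace UWT

universe u

variable {V' V : Type u} {K' : Complex V'} {K : Complex V} [Conn K'] [Conn K] {p : V' → V}

theorem dist_push_le (hp : IsCov K' K p) (x y : Pt K') :
    dist (push hp x) (push hp y) ≤ dist x y := by
  refine le_of_forall_gt fun c hc => ?_
  obtain ⟨b, hb, hbc⟩ := exists_ch_lt hc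
  exact (dist_le_of_ch (ch_push hp hb)).trans_lt hbc

theorem exists_lift (hp : IsCov K' K p) (x : Pt K') (b : Pt K) (ε : ℝ) (hε : 0 < ε) :
    ∃ z, push hp z = b ∧ dist x z < dist (push hp x) b + ε := by
  obtain ⟨ℓ, hℓ, hlt⟩ := exists_ch_lt (lt_add_of_pos_right (dist (push hp x) b) hε)
  obtain ⟨z, hz, hz'⟩ := lift_ch hp x b hℓ
  exact ⟨z, hz', (dist_le_of_ch hz).trans_lt hlt⟩

omit [Conn K] in
theorem fiber_dist (hp : IsCov K' K p) (x y : Pt K') (h : push hp x = push hp y) (hne : x ≠ y) :
    4 * (1 / 4 : ℝ) ≤ dist x y := by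
  have h1 := fiber_sep hp h hne
  have h2 := cdist_le_dist x y
  linarith

theorem locIso_push (hp : IsCov K' K p) : LocIso (push hp) :=
  locIso_of_lift (push hp) (1 / 4) (by norm_num) (dist_push_le hp)
    (fun y b ε hε => exists_lift hp y b ε hε) (fiber_dist hp)

theorem isCoveringMap_push (hp : IsCov K' K p) : IsCoveringMap (push hp) :=
  isCoveringMap_of_lift (push hp) (1 / 4) (by norm_num) (dist_push_le hp)
    (fun y b ε hε => exists_lift hp y b ε hε) (fiber_dist hp)

end UWT
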