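import Pool.Agent.URW.Geo.Geod
import Pool.Agent.URW.Geo.Cpt

/-!
# Geometric realizations of simplicial complexes as length spaces: definitions

`K : UW1.Complex V` is a simplicial complex, `Pt K` its realization (`URW.Pt K`, barycentric
coordinates) with the length metric of `URW/Geo`. `x.c : V →₀ ℝ` are the coordinates of the point
`x` as a finitely supported function; its support is a face.

* `nrm f`: half the `ℓ¹` norm of `f : V →₀ ℝ`; `cdist x y = nrm (x.c - y.c)`.
* `Adj x y`: the points `x`, `y` lie in a common face.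
* `Ch x y ℓ`: `x` and `y` are joined by a chain of length `ℓ`.
* `Edge K a b`: the vertices `a`, `b` lie in a common face.
* `Conn K`: `K` is connected and locally finite, all vertices are faces.
* `vtx K v`: the vertex `v` as a point.
* `Near K n v w`: there is a walk with `n` edges from `v` to `w`.
-/

set_option autoImplicit false

open Set Metric Topology UW1

namespace UWT

universe u

variable {V : Type u}

/-- Half the `ℓ¹` norm. -/
noncomputable def nrm (f : V →₀ ℝ) : ℝ := (∑ v ∈ f.support, |f v|) / 2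

theorem nrm_eq (f : V →₀ ℝ) {s : Finset V} (h : f.support ⊆ s) :
    nrm f = (∑ v ∈ s, |f v|) / 2 := by
  unfold nrm
  congr 1
  refine Finset.sum_subset h fun v _ hv => ?_
  rw [Finsupp.notMem_support_iff.1 hv, abs_zero]

theorem nrm_nonneg (f : V →₀ ℝ) : 0 ≤ nrm f := by
  unfold nrm
  positivity

theorem nrm_zero : nrm (0 : V →₀ ℝ) = 0 := by
  unfold nrm
  simp

theorem nrm_neg (f : V →₀ ℝ) : nrm (-f) = nrm f := by
  unfold nrm
  rw [Finsupp.support_neg]
  simp

theorem nrm_add_le (f g : V →₀ ℝ) : nrm (f + g) ≤ nrm f + nrm g := by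
  classical
  rw [nrm_eq (f + g) (s := f.support ∪ g.support) Finsupp.support_add,
    nrm_eq f (s := f.support ∪ g.support) Finset.subset_union_left,
    nrm_eq g (s := f.support ∪ g.support) Finset.subset_union_right, ← add_div,
    ← Finset.sum_add_distrib]
  refine div_le_div_of_nonneg_right (Finset.sum_le_sum fun v _ => ?_) (by norm_num)
  rw [Finsupp.add_apply]
  exact abs_add_le _ _

theorem nrm_smul (a : ℝ) (f : V →₀ ℝ) : nrm (a • f) = |a| * nrm f := by
  rw [nrm_eq (a • f) (s := f.support) Finsupp.support_smul]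
  unfold nrm
  rw [← mul_div_assoc, Finset.mul_sum]
  congr 1
  refine Finset.sum_congr rfl fun v _ => ?_
  rw [Finsupp.smul_apply, smul_eq_mul, abs_mul]

theorem nrm_sub_comm (f g : V →₀ ℝ) : nrm (f - g) = nrm (g - f) := by
  rw [← nrm_neg, neg_sub]

theorem nrm_sub_le (f g h : V →₀ ℝ) : nrm (f - h) ≤ nrm (f - g) + nrm (g - h) := by
  have := nrm_add_le (f - g) (g - h)
  rwa [sub_add_sub_cancel] at this

/-- coordinates are bounded by twice the norm -/
theorem abs_le_nrm (f : V →₀ ℝ) (v : V) : |f v| ≤ 2 * nrm f := by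
  unfold nrm
  by_cases hv : v ∈ f.support
  · have := Finset.single_le_sum (f := fun v => |f v|) (fun i _ => abs_nonneg (f i)) hv
    linarith
  · rw [Finsupp.notMem_support_iff.1 hv, abs_zero]
    positivity

theorem nrm_eq_zero {f : V →₀ ℝ} (h : nrm f = 0) : f = 0 := by
  ext v
  have := abs_le_nrm f v
  rw [h, mul_zero] at this
  exact abs_nonpos_iff.1 this

/-- The points of the realization of `K`. -/
abbrev Pt (K : Complex V) : Type u := URW.Pt K

variable {K : Complex V}

theorem Pt.finite_support (x : Pt K) : (Function.support x.1).Finite := by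
  obtain ⟨s, _, _, h1, _⟩ := x.2
  exact s.finite_toSet.subset fun v hv => by_contra fun h => hv (h1 v h)

/-- the barycentric coordinates as a finitely supported function -/
noncomputable def Pt.c (x : Pt K) : V →₀ ℝ := Finsupp.ofSupportFinite x.1 x.finite_support

theorem Pt.c_apply (x : Pt K) (v : V) : x.c v = x.1 v := rfl

theorem Pt.mem (x : Pt K) : x.c.support ∈ K.faces := by
  obtain ⟨s, hs, h0, h1, h2⟩ := x.2
  have hsub : x.c.support ⊆ s := fun v hv => by
    by_contra h
    exact Finsupp.mem_support_iff.1 hv (h1 v h)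
  refine K.down_closed s hs _ hsub ?_
  rw [Finset.nonempty_iff_ne_empty]
  intro h
  have h3 : ∑ v ∈ s, x.1 v = 0 := Finset.sum_eq_zero fun v _ => by
    have h4 : v ∉ x.c.support := by
      rw [h]
      exact Finset.notMem_empty v
    exact Finsupp.notMem_support_iff.1 h4
  rw [h2] at h3
  exact one_ne_zero h3

theorem Pt.nonneg (x : Pt K) (v : V) : 0 ≤ x.c v := by
  obtain ⟨s, _, h0, h1, _⟩ := x.2
  by_cases hv : v ∈ s
  · exact h0 v hv
  · exact (h1 v hv).ge

theorem Pt.sum_one (x : Pt K) : ∑ v ∈ x.c.support, x.c v = 1 := by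
  obtain ⟨s, _, _, h1, h2⟩ := x.2
  rw [← h2]
  refine Finset.sum_subset (fun v hv => ?_) fun v _ hv => Finsupp.notMem_support_iff.1 hv
  by_contra h
  exact Finsupp.mem_support_iff.1 hv (h1 v h)

theorem Pt.ext {x y : Pt K} (h : x.c = y.c) : x = y :=
  Subtype.ext (funext fun v => DFunLike.congr_fun h v)

/-- a point with given coordinates -/
def mkPt (c : V →₀ ℝ) (mem : c.support ∈ K.faces) (nonneg : ∀ v, 0 ≤ c v)
    (sum_one : ∑ v ∈ c.support, c v = 1) : Pt K :=
  ⟨c, c.support, mem, fun v _ => nonneg v, fun _ hv => Finsupp.notMem_support_iff.1 hv, sum_one⟩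

theorem mkPt_c (c : V →₀ ℝ) (mem : c.support ∈ K.faces) (nonneg : ∀ v, 0 ≤ c v)
    (sum_one : ∑ v ∈ c.support, c v = 1) : (mkPt (K := K) c mem nonneg sum_one).c = c := by
  ext v
  rfl

theorem Pt.sum_eq (x : Pt K) {s : Finset V} (h : x.c.support ⊆ s) : ∑ v ∈ s, x.c v = 1 := by
  rw [← x.sum_one]
  symm
  exact Finset.sum_subset h fun v _ hv => Finsupp.notMem_support_iff.1 hv

theorem Pt.le_one (x : Pt K) (v : V) : x.c v ≤ 1 := by
  by_cases hv : v ∈ x.c.support
  · rw [← x.sum_one]
    exact Finset.single_le_sum (f := fun v => x.c v) (fun i _ => x.nonneg i) hv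
  · rw [Finsupp.notMem_support_iff.1 hv]
    norm_num

theorem Pt.pos (x : Pt K) {v : V} (hv : v ∈ x.c.support) : 0 < x.c v :=
  lt_of_le_of_ne (x.nonneg v) (Ne.symm (Finsupp.mem_support_iff.1 hv))

theorem Pt.exists_mem (x : Pt K) : ∃ v, v ∈ x.c.support := K.nonempty_of_mem _ x.mem

/-- The `ℓ¹` distance of the coordinates (divided by two). -/
noncomputable def cdist (x y : Pt K) : ℝ := nrm (x.c - y.c)

theorem cdist_nonneg (x y : Pt K) : 0 ≤ cdist x y := nrm_nonneg _

theorem cdist_self (x : Pt K) : cdist x x = 0 := by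
  unfold cdist
  rw [sub_self, nrm_zero]

theorem cdist_comm (x y : Pt K) : cdist x y = cdist y x := nrm_sub_comm _ _

theorem cdist_triangle (x y z : Pt K) : cdist x z ≤ cdist x y + cdist y z := nrm_sub_le _ _ _

theorem eq_of_cdist_eq_zero {x y : Pt K} (h : cdist x y = 0) : x = y :=
  Pt.ext (sub_eq_zero.1 (nrm_eq_zero h))

theorem abs_sub_le_cdist (x y : Pt K) (v : V) : |x.c v - y.c v| ≤ 2 * cdist x y := by
  have := abs_le_nrm (x.c - y.c) v
  rwa [Finsupp.sub_apply] at this

/-- `cdist` is at most one. -/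
theorem cdist_le_one (x y : Pt K) : cdist x y ≤ 1 := by
  classical
  unfold cdist
  rw [nrm_eq (x.c - y.c) (s := x.c.support ∪ y.c.support) (Finsupp.support_sub)]
  have h : ∑ v ∈ x.c.support ∪ y.c.support, |(x.c - y.c) v| ≤
      ∑ v ∈ x.c.support ∪ y.c.support, (x.c v + y.c v) := by
    refine Finset.sum_le_sum fun v _ => ?_
    rw [Finsupp.sub_apply]
    have h1 := x.nonneg v
    have h2 := y.nonneg v
    exact abs_sub_le_iff.2 ⟨by linarith, by linarith⟩
  rw [Finset.sum_add_distrib, x.sum_eq Finset.subset_union_left,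
    y.sum_eq Finset.subset_union_right] at h
  linarith

/-- The points `x` and `y` lie in a common face. -/
def Adj (x y : Pt K) : Prop := ∃ s ∈ K.faces, x.c.support ⊆ s ∧ y.c.support ⊆ s

theorem Adj.refl (x : Pt K) : Adj x x := ⟨_, x.mem, subset_rfl, subset_rfl⟩

theorem Adj.symm {x y : Pt K} (h : Adj x y) : Adj y x := by
  obtain ⟨s, hs, h1, h2⟩ := h
  exact ⟨s, hs, h2, h1⟩

theorem adj_of_subset {x y : Pt K} (h : x.c.support ⊆ y.c.support) : Adj x y :=
  ⟨_, y.mem, h, subset_rfl⟩

/-- `Ch x y ℓ`: there is a chain of points from `x` to `y` in which consecutive points lie in a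
common face, of total length `ℓ`. -/
inductive Ch : Pt K → Pt K → ℝ → Prop
  | nil (x : Pt K) : Ch x x 0
  | cons {x y z : Pt K} {ℓ : ℝ} (h : Adj x y) (h' : Ch y z ℓ) : Ch x z (cdist x y + ℓ)

theorem Ch.single {x y : Pt K} (h : Adj x y) : Ch x y (cdist x y) := by
  have := Ch.cons h (Ch.nil y)
  rwa [add_zero] at this

theorem Ch.append {x y z : Pt K} {a b : ℝ} (h : Ch x y a) (h' : Ch y z b) :
    Ch x z (a + b) := by
  induction h with
  | nil x => rwa [zero_add]
  | cons h1 _ ih =>
    rw [add_assoc]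
    exact Ch.cons h1 (ih h')

theorem Ch.symm {x y : Pt K} {a : ℝ} (h : Ch x y a) : Ch y x a := by
  induction h with
  | nil x => exact Ch.nil x
  | @cons x y z ℓ h1 _ ih =>
    have := ih.append (Ch.single h1.symm)
    rwa [cdist_comm, add_comm] at this

theorem Ch.cdist_le {x y : Pt K} {a : ℝ} (h : Ch x y a) : cdist x y ≤ a := by
  induction h with
  | nil x => exact (cdist_self x).le
  | @cons x y z ℓ h1 _ ih =>
    have := cdist_triangle x y z
    linarith

theorem Ch.nonneg {x y : Pt K} {a : ℝ} (h : Ch x y a) : 0 ≤ a :=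
  (cdist_nonneg x y).trans h.cdist_le

/-- The vertices `a` and `b` lie in a common face. -/
def Edge (K : Complex V) (a b : V) : Prop := ∃ s ∈ K.faces, a ∈ s ∧ b ∈ s

theorem Edge.symm {a b : V} (h : Edge K a b) : Edge K b a := by
  obtain ⟨s, hs, h1, h2⟩ := h
  exact ⟨s, hs, h2, h1⟩

/-- The complex `K` is connected and locally finite, all its vertices are faces. -/
class Conn (K : Complex V) : Prop where
  /-- all vertices are faces -/
  single : ∀ v, {v} ∈ K.faces
  /-- any two vertices are joined by a walk -/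
  conn : ∀ v w, Relation.ReflTransGen (Edge K) v w
  /-- every vertex lies in finitely many faces -/
  locfin : ∀ v, {s | s ∈ K.faces ∧ v ∈ s}.Finite

theorem adj_iff {x y : Pt K} : Adj x y ↔ URW.Cs K x y := by
  constructor
  · rintro ⟨s, hs, h1, h2⟩
    exact ⟨s, hs, fun v hv => ⟨Finsupp.notMem_support_iff.1 fun h => hv (h1 h),
      Finsupp.notMem_support_iff.1 fun h => hv (h2 h)⟩⟩
  · rintro ⟨s, hs, h⟩
    refine ⟨s, hs, fun v hv => ?_, fun v hv => ?_⟩
    · by_contra hn
      exact Finsupp.mem_support_iff.1 hv (h v hn).1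
    · by_contra hn
      exact Finsupp.mem_support_iff.1 hv (h v hn).2

theorem cdist_eq_hd (x y : Pt K) : cdist x y = URW.hd x.1 y.1 := by
  unfold cdist nrm URW.hd
  rw [finsum_eq_sum_of_support_subset (s := (x.c - y.c).support)]
  · rw [div_eq_inv_mul, one_div]
    rfl
  · intro v hv
    rw [Finset.mem_coe, Finsupp.mem_support_iff, Finsupp.sub_apply]
    intro h
    apply hv
    change |x.1 v - y.1 v| = 0
    rw [abs_eq_zero]
    exact h

theorem ch_iff {x y : Pt K} {ℓ : ℝ} : Ch x y ℓ ↔ URW.Ch K x y ℓ := by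
  constructor
  · intro h
    induction h with
    | nil x => exact URW.Ch.nil x
    | cons h _ ih =>
      rw [cdist_eq_hd]
      exact URW.Ch.cons (adj_iff.1 h) ih
  · intro h
    induction h with
    | nil x => exact Ch.nil x
    | cons h _ ih =>
      rw [← cdist_eq_hd]
      exact Ch.cons (adj_iff.2 h) ih

section Conn

variable [hK : Conn K]

theorem Conn.nice : URW.Nice K := ⟨hK.single, hK.conn, hK.locfin⟩

instance Conn.fact : Fact (URW.Nice K) := ⟨Conn.nice⟩

theorem Edge.refl (K : Complex V) [hK : Conn K] (v : V) : Edge K v v :=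
  ⟨{v}, hK.single v, Finset.mem_singleton_self v, Finset.mem_singleton_self v⟩

/-- The vertex `v` as a point of the realization. -/
noncomputable def vtx (K : Complex V) [hK : Conn K] (v : V) : Pt K := URW.vx Conn.nice v

theorem vtx_c (v : V) : (vtx K v).c = Finsupp.single v 1 := by
  classical
  ext w
  rw [Finsupp.single_apply]
  change (if w = v then (1 : ℝ) else 0) = _
  simp only [eq_comm]

theorem vtx_support (v : V) : (vtx K v).c.support = {v} := by
  rw [vtx_c]
  exact Finsupp.support_single v one_ne_zero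

theorem adj_vtx {x : Pt K} {v : V} (hv : v ∈ x.c.support) : Adj x (vtx K v) := by
  refine ⟨_, x.mem, subset_rfl, ?_⟩
  rw [vtx_support]
  exact Finset.singleton_subset_iff.2 hv

theorem adj_vtx_vtx {v w : V} (h : Edge K v w) : Adj (vtx K v) (vtx K w) := by
  obtain ⟨s, hs, h1, h2⟩ := h
  refine ⟨s, hs, ?_, ?_⟩ <;> rw [vtx_support] <;> exact Finset.singleton_subset_iff.2 ‹_›

theorem cdist_le_dist (x y : Pt K) : cdist x y ≤ dist x y := by
  rw [cdist_eq_hd]
  exact URW.hd_le_gdist Conn.nice x y

theorem dist_le_of_ch {x y : Pt K} {a : ℝ} (h : Ch x y a) : dist x y ≤ a :=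
  URW.gdist_le (ch_iff.1 h)

/-- the distance is the length of a shortest chain -/
theorem exists_ch_dist (x y : Pt K) : Ch x y (dist x y) := ch_iff.2 (URW.exists_min_chain x y)

theorem exists_ch_lt {x y : Pt K} {a : ℝ} (h : dist x y < a) : ∃ b, Ch x y b ∧ b < a :=
  ⟨_, exists_ch_dist x y, h⟩

/-- inside a face the metric is `cdist` -/
theorem dist_eq_of_adj {x y : Pt K} (h : Adj x y) : dist x y = cdist x y :=
  le_antisymm (dist_le_of_ch (Ch.single h)) (cdist_le_dist x y)

theorem dist_le_one_of_adj {x y : Pt K} (h : Adj x y) : dist x y ≤ 1 := by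
  rw [dist_eq_of_adj h]
  exact cdist_le_one x y

/-- There is a walk with `n` edges from `v` to `w` (an edge: two vertices of a common face). -/
def Near (K : Complex V) (n : ℕ) (v w : V) : Prop := URW.Rn K n v w

theorem near_mono {m n : ℕ} (h : m ≤ n) {v w : V} (hm : Near K m v w) : Near K n v w := by
  induction n generalizing m v with
  | zero =>
    obtain rfl := Nat.le_zero.1 h
    exact hm
  | succ n ih =>
    cases m with
    | zero =>
      have hvw : v = w := hm
      subst hvw
      exact ⟨v, Edge.refl K v, ih (Nat.zero_le n) (show Near K 0 v v from rfl)⟩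
    | succ m =>
      obtain ⟨u, hu, hu'⟩ := hm
      exact ⟨u, hu, ih (Nat.le_of_succ_le_succ h) hu'⟩

theorem dist_le_of_near {n : ℕ} {v w : V} (h : Near K n v w) :
    dist (vtx K v) (vtx K w) ≤ n := URW.dist_vx_le h

theorem near_of_dist {n : ℕ} {v w : V} (h : dist (vtx K v) (vtx K w) ≤ n) :
    Near K n v w := by
  obtain ⟨k, hk, hk'⟩ := URW.exists_walk (K := K) v w
  exact near_mono (by exact_mod_cast hk'.trans h) hk

theorem near_of_dist_points {n : ℕ} {x y : Pt K} (h : dist x y ≤ n) {v w : V}
    (hv : v ∈ x.c.support) (hw : w ∈ y.c.support) : Near K (n + 2) v w := by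
  apply near_of_dist
  have h1 := dist_le_one_of_adj (adj_vtx hv)
  have h2 := dist_le_one_of_adj (adj_vtx hw)
  have h3 := dist_triangle (vtx K v) x (vtx K w)
  have h4 := dist_triangle x y (vtx K w)
  rw [dist_comm (vtx K v) x] at h3
  push_cast
  linarith

theorem geodesic_real : Geodesic (Pt K) := URW.geodesic_pt

theorem compactSpace_of_finite [Finite V] : CompactSpace (Pt K) := URW.compact_pt

end Conn

end UWT
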