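import Pool.Agent.UWT.Mix

/-!
# UWT package Hom: homotopies of paths in the realization

`seg x y h` is the straight path between two points of a common face.

PROOF of `homotopic_of_face`. The homotopy `H (t, u) = mix (p u) (q u) _ t` (all points are in the
face `s`, so `p u` and `q u` are adjacent); it is continuous by `continuous_of_finite` with
`F = s` (`mix_support_subset`; coordinates: `(1 - t) * (p u).c v + t * (q u).c v`, and
`continuous_coord`). `H (0, u) = p u`, `H (1, u) = q u` (`mix_zero`, `mix_one`), and at `u = 0, 1`
it is constant (`mix_self`). Build `Path.Homotopy` (`toFun`, `map_zero_left`, `map_one_left`,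
`prop'`).
-/

set_option autoImplicit false

open Set Metric Topology UW1 unitInterval

namespace UWT

universe u

variable {V : Type u} {K : Complex V} [hK : Conn K]

/-- The straight path between two points of a common face. -/
noncomputable def seg (x y : Pt K) (h : Adj x y) : Path x y where
  toFun t := mix x y h t t.2
  continuous_toFun := by
    refine continuous_of_cdist _ fun t ε hε => ?_
    have h1 : ∀ t' : I, cdist (mix x y h t t.2) (mix x y h t' t'.2) ≤ dist t' t := by
      intro t'
      rw [cdist_mix]
      refine (mul_le_of_le_one_right (abs_nonneg _) (cdist_le_one x y)).trans ?_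
      rw [abs_sub_comm]
      exact le_of_eq (Real.dist_eq _ _).symm
    filter_upwards [Metric.ball_mem_nhds t hε] with t' ht'
    exact (h1 t').trans_lt ht'
  source' := mix_zero x y h _
  target' := mix_one x y h _

theorem seg_apply (x y : Pt K) (h : Adj x y) (t : I) : seg x y h t = mix x y h t t.2 := rfl

theorem seg_support {x y : Pt K} (h : Adj x y) {s : Finset V} (h1 : x.c.support ⊆ s)
    (h2 : y.c.support ⊆ s) (t : I) : (seg x y h t).c.support ⊆ s :=
  mix_support_subset h t.2 h1 h2

theorem homotopic_of_face {s : Finset V} (hs : s ∈ K.faces) {x y : Pt K} (p q : Path x y)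
    (hp : ∀ t, (p t).c.support ⊆ s) (hq : ∀ t, (q t).c.support ⊆ s) : p.Homotopic q := by
  have hadj : ∀ u, Adj (p u) (q u) := fun u => ⟨s, hs, hp u, hq u⟩
  have hcont : Continuous fun z : I × I => mix (p z.2) (q z.2) (hadj z.2) z.1 z.1.2 := by
    refine continuous_of_finite _ s
      (fun z => mix_support_subset (hadj z.2) z.1.2 (hp z.2) (hq z.2)) fun v _ => ?_
    have e : (fun z : I × I => (mix (p z.2) (q z.2) (hadj z.2) z.1 z.1.2).c v) =
        fun z => (1 - (z.1 : ℝ)) * (p z.2).c v + (z.1 : ℝ) * (q z.2).c v := by
      funext z
      rw [mix_c]
      rfl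
    rw [e]
    have h1 : Continuous fun z : I × I => (p z.2).c v :=
      (continuous_coord v).comp (p.continuous.comp continuous_snd)
    have h2 : Continuous fun z : I × I => (q z.2).c v :=
      (continuous_coord v).comp (q.continuous.comp continuous_snd)
    have h3 : Continuous fun z : I × I => (z.1 : ℝ) := continuous_subtype_val.comp continuous_fst
    exact ((continuous_const.sub h3).mul h1).add (h3.mul h2)
  refine ⟨{ toFun := fun z => mix (p z.2) (q z.2) (hadj z.2) z.1 z.1.2
            continuous_toFun := hcont
            map_zero_left := fun u => mix_zero _ _ _ _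
            map_one_left := fun u => mix_one _ _ _ _
            prop' := ?_ }⟩
  intro t u hu
  have key : ∀ (a b z : Pt K) (h : Adj a b) (t : I), a = z → b = z → mix a b h t t.2 = z := by
    rintro a b z h t rfl rfl
    exact mix_self _ _ _ _
  rcases hu with hu | hu
  · subst hu
    exact key _ _ _ (hadj 0) _ rfl (q.source.trans p.source.symm)
  · have hu' : u = 1 := hu
    subst hu'
    exact key _ _ _ (hadj 1) _ rfl (q.target.trans p.target.symm)

end UWT
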