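import Pool.Agent.UW1.Round
import Pool.Agent.UW1.Compact

/-!
# UWT package Label: small 1-dimensional width gives a labelling

PROOF. From `UW 1 X < ENNReal.ofReal R` get `ε' < ENNReal.ofReal R`, a complex `K` of dimension
at most one and a continuous `f : X → V → ℝ` into `K.real` with `edist x y ≤ ε'` whenever
`f x = f y` (`sInf_lt_iff`). So `dist x y ≤ w := ε'.toReal < R` if `f x = f y`. `UW1.sep` (with
`S = Q = X`, `g = id`, `w' = R`) gives `n > 0` with: `|f x v - f y v| ≤ 2 / n` for all `v` implies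
`dist x y < R`. `exists_round K _ n` gives the rounding `α`. Put `lam x = α (f x)`,
`T = V → ℝ`. If `lam x = lam y` then `|f x v - f y v| ≤ 2 / n`, so `dist x y < R`. `UW1.unif` with
`η = 1 / (4 n)` gives `δ`; three points with pairwise distances `< δ` have pairwise coordinate
differences `< 1 / (4 n)`, so two of their labels agree.
-/

set_option autoImplicit false

open Set Metric Topology UW1

namespace UWT

universe u

theorem exists_label {X : Type u} [MetricSpace X] [CompactSpace X] (R : ℝ)
    (h : UW 1 X < ENNReal.ofReal R) : ∃ (T : Type u) (lam : X → T) (δ : ℝ), 0 < δ ∧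
      (∀ x y z, dist x y < δ → dist y z < δ → dist x z < δ →
        lam x = lam y ∨ lam y = lam z ∨ lam x = lam z) ∧
      ∀ x y, lam x = lam y → dist x y < R := by
  unfold UW at h
  obtain ⟨ε', ⟨V, K, hK, f, hf, hfK, hfib⟩, hε⟩ := sInf_lt_iff.1 h
  have hw : ε'.toReal < R := ENNReal.toReal_lt_of_lt_ofReal hε
  have htop : ε' ≠ ⊤ := ne_top_of_lt hε
  have hfib' : ∀ x y, f x = f y → dist ((fun x : X => x) x) ((fun x : X => x) y) ≤ ε'.toReal := by
    intro x y hxy
    simp only
    rw [dist_edist]
    exact ENNReal.toReal_mono htop (hfib x y hxy)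
  obtain ⟨n, hn, hsep⟩ := UW1.sep f hf (fun x : X => x) continuous_id ε'.toReal R hw hfib'
  obtain ⟨α, hα, hα3⟩ := exists_round K hK n hn
  have hn0 : (0 : ℝ) < n := by exact_mod_cast hn
  obtain ⟨δ, hδ, hun⟩ := UW1.unif K f hf hfK (1 / (4 * n)) (by positivity)
  refine ⟨V → ℝ, fun x => α (f x), δ, hδ, ?_, ?_⟩
  · intro x y z h1 h2 h3
    exact hα3 _ (hfK x) _ (hfK y) _ (hfK z) (hun x y h1) (hun y z h2) (hun x z h3)
  · intro x y hxy
    refine hsep x y fun v => ?_
    have h1 := hα _ (hfK x) v
    have h2 := hα _ (hfK y) v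
    have h3 : α (f x) v = α (f y) v := congrFun hxy v
    rw [h3, abs_le] at h1
    rw [abs_le] at h2
    have h4 : (2 : ℝ) / n = 1 / n + 1 / n := by ring
    rw [h4, abs_le]
    constructor <;> linarith [h1.1, h1.2, h2.1, h2.2]

end UWT
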