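import Pool.Agent.UWT.Topo

/-!
# UWT package Local: local-to-global principle for path classes

`Φ x y : Path.Homotopic.Quotient x y` is a candidate for the class of every path from `x` to `y`.
If `Φ` is multiplicative (`hmul`), and every path which stays in the open star of a vertex has the
class `Φ`, then every path has the class `Φ`.

PROOF. The open stars `{x | v ∈ x.c.support} = {x | 0 < x.c v}` are open (`continuous_coord`,
`Pt.pos`, `Pt.nonneg`) and cover `Pt K`. Let `γ : Path x y`. By
`exists_monotone_Icc_subset_open_cover_unitInterval` (for the preimages of the stars under `γ`)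
there are `t : ℕ → I`, `t 0 = 0`, monotone, `t m = 1` for `m ≥ n`, each `Icc (t k) (t (k + 1))`
mapped by `γ` into one star. By induction on `k`: the class of `γ.subpath 0 (t k)` is
`Φ (γ 0) (γ (t k))`. For `k = 0`: `γ.subpath 0 0` is constant (`Path.subpath_self`), it stays in
the star of a vertex of `γ 0`, so `hloc` applies. Step: `γ.subpath 0 (t (k + 1))` is homotopic to
`(γ.subpath 0 (t k)).trans (γ.subpath (t k) (t (k + 1)))`
(`Path.Homotopy.subpathTransSubpath`), the second path stays in a star
(`Path.range_subpath_of_le`), use `hloc` and `hmul`. For `k = n`: `γ.subpath 0 1 = γ.cast _ _`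
(`Path.subpath_zero_one`). Endpoint casts: it may be easier to prove first the statement
`∀ a b (ha : γ a = x') (hb : γ b = y'), …`, or to use `Path.cast` and `subst`.
-/

set_option autoImplicit false

open Set Metric Topology UW1 unitInterval

namespace UWT

universe u

variable {V : Type u} {K : Complex V} [hK : Conn K]

theorem isOpen_star (v : V) : IsOpen {x : Pt K | v ∈ x.c.support} := by
  have e : {x : Pt K | v ∈ x.c.support} = {x : Pt K | 0 < x.c v} := by
    ext x
    exact ⟨fun h => x.pos h, fun h => Finsupp.mem_support_iff.2 (ne_of_gt h)⟩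
  rw [e]
  exact isOpen_lt continuous_const (continuous_coord v)

private theorem uncast (Φ : ∀ x y : Pt K, Path.Homotopic.Quotient x y) {x y : Pt K}
    (γ : Path x y) : ∀ (a b : Pt K) (ha : a = x) (hb : b = y),
    Path.Homotopic.Quotient.mk (γ.cast ha hb) = Φ a b → Path.Homotopic.Quotient.mk γ = Φ x y := by
  rintro a b rfl rfl h
  exact h

theorem class_eq (Φ : ∀ x y : Pt K, Path.Homotopic.Quotient x y)
    (hmul : ∀ x y z, Path.Homotopic.Quotient.trans (Φ x y) (Φ y z) = Φ x z)
    (hloc : ∀ (v : V) (x y : Pt K) (p : Path x y), (∀ t, v ∈ (p t).c.support) →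
      Path.Homotopic.Quotient.mk p = Φ x y)
    (x y : Pt K) (γ : Path x y) : Path.Homotopic.Quotient.mk γ = Φ x y := by
  obtain ⟨t, ht0, htm, ⟨n, hn⟩, ht⟩ := exists_monotone_Icc_subset_open_cover_unitInterval
    (c := fun v : V => γ ⁻¹' {x : Pt K | v ∈ x.c.support})
    (fun v => (isOpen_star v).preimage γ.continuous) fun s _ => by
      obtain ⟨v, hv⟩ := (γ s).exists_mem
      exact Set.mem_iUnion.2 ⟨v, hv⟩
  have key : ∀ k, Path.Homotopic.Quotient.mk (γ.subpath 0 (t k)) = Φ (γ 0) (γ (t k)) := by
    intro k
    induction k with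
    | zero =>
      rw [ht0]
      obtain ⟨v, hv⟩ := (γ 0).exists_mem
      refine hloc v _ _ _ fun s => ?_
      rw [Path.subpath_self]
      exact hv
    | succ k ih =>
      have h1 : Path.Homotopic.Quotient.mk (γ.subpath 0 (t (k + 1))) =
          Path.Homotopic.Quotient.mk
            ((γ.subpath 0 (t k)).trans (γ.subpath (t k) (t (k + 1)))) :=
        (Path.Homotopic.Quotient.eq.2
          ⟨Path.Homotopy.subpathTransSubpath γ 0 (t k) (t (k + 1))⟩).symm
      obtain ⟨v, hv⟩ := ht k
      have h2 : Path.Homotopic.Quotient.mk (γ.subpath (t k) (t (k + 1))) =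
          Φ (γ (t k)) (γ (t (k + 1))) := by
        refine hloc v _ _ _ fun s => ?_
        have h3 : (γ.subpath (t k) (t (k + 1))) s ∈
            range (γ.subpath (t k) (t (k + 1))) := mem_range_self s
        rw [Path.range_subpath_of_le γ _ _ (htm (Nat.le_succ k))] at h3
        obtain ⟨s', hs', h4⟩ := h3
        rw [← h4]
        exact hv hs'
      rw [h1, Path.Homotopic.Quotient.mk_trans, ih, h2, hmul]
  have h1 := key n
  rw [hn n le_rfl, Path.subpath_zero_one] at h1
  exact uncast Φ γ _ _ _ _ h1

end UWT
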