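import Pool.Agent.UWT.Star
import Pool.Agent.UWT.Local

/-!
# UWT package SC: combinatorial criterion for simple connectivity

`CohTrivial K`: every cocycle on the edges of `K` with values in any group is a coboundary.

PROOF of `simplyConnected`. All vertices are joined by paths: for each vertex `v` fix a base
vertex `o` and a path `τ v` from `vtx o` to `vtx v` (`Conn.conn`, concatenation of segments `seg`).
Let `G = Path.Homotopic.Quotient (vtx o) (vtx o)` with the group structure of
`FundamentalGroup (Pt K) (vtx o)` (or any group structure built from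
`Path.Homotopic.Quotient.trans`). For an edge `a b` put
`g a b = [τ a · seg (vtx a) (vtx b) · (τ b)⁻¹]`, and `g a b = 1` for non-edges. If `a, b, c` lie in
a common face `s` then `seg a b · seg b c ≃ seg a c` (`homotopic_of_face`), so
`g a b * g b c = g a c` (or the opposite order, according to the convention of the group law; then
use the inverse family or the opposite group). By `CohTrivial` there is `f : V → G` with
`g a b = (f a)⁻¹ * f b` for all edges. Put `σ v = f v · τ v` (a class of paths from `vtx o` to
`vtx v`); then `[seg (vtx a) (vtx b)] = (σ a)⁻¹ · σ b` for all edges `a b`.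
For a point `x` and `v ∈ x.c.support` put `θ v x = σ v · [seg (vtx v) x]`. Independence of `v`: for
`v, w ∈ x.c.support`, `[seg v w] · [seg w x] = [seg v x]` (`homotopic_of_face`, face
`x.c.support`), so `θ v x = σ v · [seg v w] · [seg w x] = σ w · [seg w x] = θ w x`. Let `θ x` be
the common value and `Φ x y = (θ x)⁻¹ · θ y`. `Φ` is multiplicative. If `p : Path x y` stays in the
star of `v` then `[p] = [seg x v] · [seg v y]` (`homotopic_of_star`) `= (θ v x)⁻¹ · θ v y = Φ x y`
(`[seg x v] = [seg v x]⁻¹` by `homotopic_of_face`). So all path classes are `Φ x y` (`class_eq`)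
and any two paths with the same endpoints are homotopic. Path connectedness: every point is joined
to a vertex by `seg`. Conclude with `simply_connected_iff_paths_homotopic'`.
-/

set_option autoImplicit false

open Set Metric Topology UW1

namespace UWT

universe u

variable {V : Type u} {K : Complex V}

/-- Every cocycle on the edges of `K` with values in a group is a coboundary. -/
def CohTrivial (K : Complex V) : Prop :=
  ∀ (G : Type u) [Group G] (g : V → V → G),
    (∀ s ∈ K.faces, ∀ a ∈ s, ∀ b ∈ s, ∀ c ∈ s, g a b * g b c = g a c) →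
    ∃ f : V → G, ∀ a b, Edge K a b → g a b = (f a)⁻¹ * f b

open Path.Homotopic in
/-- the group of classes of loops -/
private def LoopG {X : Type u} [TopologicalSpace X] (o : X) : Type u :=
  Path.Homotopic.Quotient o o

open Path.Homotopic in
private noncomputable instance {X : Type u} [TopologicalSpace X] (o : X) : Group (LoopG o) where
  mul p q := Quotient.trans p q
  mul_assoc p q r := Quotient.trans_assoc p q r
  one := Quotient.refl o
  one_mul p := Quotient.refl_trans p
  mul_one p := Quotient.trans_refl p
  inv p := Quotient.symm p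
  inv_mul_cancel p := Quotient.symm_trans p

private theorem loopG_mul {X : Type u} [TopologicalSpace X] {o : X} (p q : LoopG o) :
    p * q = Path.Homotopic.Quotient.trans p q := rfl

private theorem loopG_inv {X : Type u} [TopologicalSpace X] {o : X} (p : LoopG o) :
    p⁻¹ = Path.Homotopic.Quotient.symm p := rfl

private theorem cancel_mid {X : Type u} [TopologicalSpace X] {o v x y : X}
    (a : Path.Homotopic.Quotient o v) (b : Path.Homotopic.Quotient v x)
    (c : Path.Homotopic.Quotient v y) :
    (a.trans b).trans (b.symm.trans c) = a.trans c := by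
  rw [Path.Homotopic.Quotient.trans_assoc, ← Path.Homotopic.Quotient.trans_assoc b,
    Path.Homotopic.Quotient.trans_symm, Path.Homotopic.Quotient.refl_trans]

section

variable [hK : Conn K]

private theorem seg_trans {s : Finset V} (hs : s ∈ K.faces) {x y z : Pt K}
    (hx : x.c.support ⊆ s) (hy : y.c.support ⊆ s) (hz : z.c.support ⊆ s)
    (h1 : Adj x y) (h2 : Adj y z) (h3 : Adj x z) :
    Path.Homotopic.Quotient.trans (Path.Homotopic.Quotient.mk (seg x y h1))
      (Path.Homotopic.Quotient.mk (seg y z h2)) = Path.Homotopic.Quotient.mk (seg x z h3) := by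
  rw [← Path.Homotopic.Quotient.mk_trans, Path.Homotopic.Quotient.eq]
  refine homotopic_of_face hs _ _ (fun t => ?_) (fun t => seg_support h3 hx hz t)
  have ht : ((seg x y h1).trans (seg y z h2)) t ∈ range ((seg x y h1).trans (seg y z h2)) :=
    ⟨t, rfl⟩
  rw [Path.trans_range] at ht
  rcases ht with ⟨u, hu⟩ | ⟨u, hu⟩
  · rw [← hu]
    exact seg_support h1 hx hy u
  · rw [← hu]
    exact seg_support h2 hy hz u

private theorem seg_symm {x y : Pt K} (h1 : Adj x y) (h2 : Adj y x) :
    Path.Homotopic.Quotient.mk (seg x y h1) =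
      Path.Homotopic.Quotient.symm (Path.Homotopic.Quotient.mk (seg y x h2)) := by
  obtain ⟨s, hs, hx, hy⟩ := h1
  rw [← Path.Homotopic.Quotient.mk_symm, Path.Homotopic.Quotient.eq]
  refine homotopic_of_face hs _ _ (fun t => seg_support _ hx hy t) (fun t => ?_)
  rw [Path.symm_apply]
  exact seg_support h2 hy hx _

private theorem vtx_sub {s : Finset V} {v : V} (hv : v ∈ s) : (vtx K v).c.support ⊆ s := by
  rw [vtx_support]
  exact Finset.singleton_subset_iff.2 hv

private theorem joined_vtx (o v : V) : Joined (vtx K o) (vtx K v) := by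
  induction hK.conn o v with
  | refl => exact Joined.refl _
  | tail _ h ih => exact ih.trans ⟨seg _ _ (adj_vtx_vtx h)⟩

end

theorem simplyConnected [Nonempty V] [hK : Conn K] (h : CohTrivial K) :
    SimplyConnectedSpace (Pt K) := by
  classical
  obtain ⟨o⟩ := ‹Nonempty V›
  let τ : ∀ v : V, Path.Homotopic.Quotient (vtx K o) (vtx K v) := fun v =>
    Path.Homotopic.Quotient.mk (joined_vtx o v).somePath
  let g : V → V → LoopG (vtx K o) := fun a b =>
    if hab : Edge K a b then
      Path.Homotopic.Quotient.trans (Path.Homotopic.Quotient.trans (τ a)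
        (Path.Homotopic.Quotient.mk (seg _ _ (adj_vtx_vtx hab))))
        (Path.Homotopic.Quotient.symm (τ b))
    else 1
  have hg : ∀ a b (hab : Edge K a b), g a b =
      Path.Homotopic.Quotient.trans (Path.Homotopic.Quotient.trans (τ a)
        (Path.Homotopic.Quotient.mk (seg _ _ (adj_vtx_vtx hab))))
        (Path.Homotopic.Quotient.symm (τ b)) := fun a b hab => dif_pos hab
  obtain ⟨f, hf⟩ := h (LoopG (vtx K o)) g (by
    intro s hs a ha b hb c hc
    have e1 : Edge K a b := ⟨s, hs, ha, hb⟩
    have e2 : Edge K b c := ⟨s, hs, hb, hc⟩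
    have e3 : Edge K a c := ⟨s, hs, ha, hc⟩
    rw [loopG_mul, hg a b e1, hg b c e2, hg a c e3,
      ← seg_trans hs (vtx_sub ha) (vtx_sub hb) (vtx_sub hc) (adj_vtx_vtx e1) (adj_vtx_vtx e2)
        (adj_vtx_vtx e3)]
    simp only [Path.Homotopic.Quotient.trans_assoc]
    rw [← Path.Homotopic.Quotient.trans_assoc (Path.Homotopic.Quotient.symm (τ b)) (τ b),
      Path.Homotopic.Quotient.symm_trans, Path.Homotopic.Quotient.refl_trans])
  obtain ⟨F, hF⟩ : ∃ F : V → Path.Homotopic.Quotient (vtx K o) (vtx K o),
      ∀ a b (hab : Edge K a b), Path.Homotopic.Quotient.trans (F a)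
        (Path.Homotopic.Quotient.trans (Path.Homotopic.Quotient.trans (τ a)
        (Path.Homotopic.Quotient.mk (seg _ _ (adj_vtx_vtx hab))))
        (Path.Homotopic.Quotient.symm (τ b))) = F b := by
    refine ⟨f, fun a b hab => ?_⟩
    have h1 := hf a b hab
    rw [eq_inv_mul_iff_mul_eq, loopG_mul, hg a b hab] at h1
    exact h1
  obtain ⟨σ, hσdef⟩ : ∃ σ : ∀ v : V, Path.Homotopic.Quotient (vtx K o) (vtx K v),
      ∀ v, σ v = Path.Homotopic.Quotient.trans (F v) (τ v) := ⟨_, fun _ => rfl⟩
  have hσ : ∀ a b (hab : Edge K a b),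
      Path.Homotopic.Quotient.trans (σ a)
        (Path.Homotopic.Quotient.mk (seg _ _ (adj_vtx_vtx hab))) = σ b := by
    intro a b hab
    have h1 := hF a b hab
    have h2 := congrArg (fun p : Path.Homotopic.Quotient (vtx K o) (vtx K o) =>
      Path.Homotopic.Quotient.trans p (τ b)) h1
    simp only [Path.Homotopic.Quotient.trans_assoc, Path.Homotopic.Quotient.symm_trans,
      Path.Homotopic.Quotient.trans_refl] at h2
    rw [hσdef, hσdef, Path.Homotopic.Quotient.trans_assoc]
    exact h2
  choose vx hvx using fun x : Pt K => x.exists_mem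
  let θ : ∀ x : Pt K, Path.Homotopic.Quotient (vtx K o) x := fun x =>
    Path.Homotopic.Quotient.trans (σ (vx x))
      (Path.Homotopic.Quotient.mk (seg _ _ (adj_vtx (hvx x)).symm))
  have hθ : ∀ (x : Pt K) (v : V) (hv : v ∈ x.c.support),
      θ x = Path.Homotopic.Quotient.trans (σ v)
        (Path.Homotopic.Quotient.mk (seg _ _ (adj_vtx hv).symm)) := by
    intro x v hv
    have e : Edge K v (vx x) := ⟨_, x.mem, hv, hvx x⟩
    rw [← seg_trans x.mem (vtx_sub hv) (vtx_sub (hvx x)) subset_rfl (adj_vtx_vtx e)
      (adj_vtx (hvx x)).symm (adj_vtx hv).symm, ← Path.Homotopic.Quotient.trans_assoc,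
      hσ v (vx x) e]
  have key := class_eq (fun x y => Path.Homotopic.Quotient.trans
    (Path.Homotopic.Quotient.symm (θ x)) (θ y))
    (by
      intro x y z
      rw [Path.Homotopic.Quotient.trans_assoc,
        ← Path.Homotopic.Quotient.trans_assoc (θ y), Path.Homotopic.Quotient.trans_symm,
        Path.Homotopic.Quotient.refl_trans])
    (by
      intro v x y p hp
      have hx : v ∈ x.c.support := by
        have := hp 0
        rwa [p.source] at this
      have hy : v ∈ y.c.support := by
        have := hp 1
        rwa [p.target] at this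
      rw [Path.Homotopic.Quotient.eq.2 (homotopic_of_star hx hy p hp),
        Path.Homotopic.Quotient.mk_trans, seg_symm (adj_vtx hx) (adj_vtx hx).symm]
      have e1 : θ y = Path.Homotopic.Quotient.trans (θ x) (Path.Homotopic.Quotient.trans
          (Path.Homotopic.Quotient.symm
            (Path.Homotopic.Quotient.mk (seg _ _ (adj_vtx hx).symm)))
          (Path.Homotopic.Quotient.mk (seg _ _ (adj_vtx hy).symm))) := by
        rw [hθ x v hx, hθ y v hy, cancel_mid]
      rw [e1, ← Path.Homotopic.Quotient.trans_assoc, Path.Homotopic.Quotient.symm_trans,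
        Path.Homotopic.Quotient.refl_trans])
  rw [simply_connected_iff_paths_homotopic']
  refine ⟨⟨⟨vtx K o⟩, fun x y => ?_⟩, fun {x y} p q => ?_⟩
  · obtain ⟨v, hv⟩ := x.exists_mem
    obtain ⟨w, hw⟩ := y.exists_mem
    exact (Joined.trans ⟨seg _ _ (adj_vtx hv)⟩ (joined_vtx v w)).trans
      ⟨seg _ _ (adj_vtx hw).symm⟩
  · exact Path.Homotopic.Quotient.eq.1 ((key x y p).trans (key x y q).symm)

end UWT
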