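import Pool.Agent.UWT.Topo

/-!
# UWT package Upper: upper bound for the 1-dimensional Uryson width of a realization

Let `φ : V → T` be a map with at most two values on each face such that vertices with the same
value are at distance at most `M`. Then `UW 1 (Pt K) ≤ M + 2`.

PROOF. Target complex on `T`: the faces are the images `s.image φ` of the faces `s` of `K`
(nonempty; a nonempty subset `t ⊆ s.image φ` is the image of the face `s.filter (φ · ∈ t)`); all
have at most two elements, so `DimLe 1`. `f x τ = Finsupp.mapDomain φ x.c τ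
= ∑ v ∈ x.c.support.filter (φ · = τ), x.c v`. `f x ∈ real`: the face `x.c.support.image φ`,
nonnegative, zero outside, sum one (`Finset.sum_fiberwise`-like; or
`Finsupp.sum_mapDomain_index`). Continuity (coordinatewise, `continuous_pi`): for fixed `τ`,
`|f x τ - f y τ| ≤ ∑ v ∈ (support union), |x.c v - y.c v| = 2 * cdist x y ≤ 2 * dist x y`.
Fibres: if `f x = f y`, take `v ∈ x.c.support`; `f x (φ v) ≥ x.c v > 0`, so `f y (φ v) > 0` and
there is `w ∈ y.c.support` with `φ w = φ v`. Then `dist x y ≤ 1 + M + 1` (`adj_vtx`,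
`dist_le_one_of_adj`). Use `edist_dist` and `ENNReal.ofReal_le_ofReal`.
-/

set_option autoImplicit false

open Set Metric Topology UW1

namespace UWT

universe u

variable {V : Type u} {K : Complex V} [hK : Conn K]

section Aux

variable {T : Type u} (φ : V → T)

/-- the image complex -/
noncomputable def imC [DecidableEq T] (K : Complex V) (φ : V → T) : Complex T where
  faces := {t | ∃ s ∈ K.faces, s.image φ = t}
  nonempty_of_mem := by
    rintro _ ⟨s, hs, rfl⟩
    exact (K.nonempty_of_mem s hs).image φ
  down_closed := by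
    rintro _ ⟨s, hs, rfl⟩ t ht hne
    have h1 : (s.filter (fun v => φ v ∈ t)).image φ = t := by
      ext τ
      rw [Finset.mem_image]
      constructor
      · rintro ⟨v, hv, rfl⟩
        exact (Finset.mem_filter.1 hv).2
      · intro hτ
        obtain ⟨v, hv, rfl⟩ := Finset.mem_image.1 (ht hτ)
        exact ⟨v, Finset.mem_filter.2 ⟨hv, hτ⟩, rfl⟩
    refine ⟨s.filter (fun v => φ v ∈ t), K.down_closed s hs _ (Finset.filter_subset _ _) ?_, h1⟩
    rw [← h1] at hne
    exact Finset.image_nonempty.1 hne

/-- the map to the image complex -/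
noncomputable def imF [DecidableEq T] (x : Pt K) (τ : T) : ℝ :=
  ∑ v ∈ x.c.support, if φ v = τ then x.c v else 0

omit hK in
theorem imF_eq [DecidableEq T] (x : Pt K) (τ : T) {F : Finset V} (h : x.c.support ⊆ F) :
    imF φ x τ = ∑ v ∈ F, if φ v = τ then x.c v else 0 := by
  refine Finset.sum_subset h fun v _ hv => ?_
  rw [Finsupp.notMem_support_iff.1 hv, ite_self]

omit hK in
theorem imF_sub [DecidableEq T] (x y : Pt K) (τ : T) :
    |imF φ x τ - imF φ y τ| ≤ 2 * cdist x y := by
  classical
  unfold cdist
  rw [nrm_eq (x.c - y.c) (s := x.c.support ∪ y.c.support) Finsupp.support_sub,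
    imF_eq φ x τ (F := x.c.support ∪ y.c.support) Finset.subset_union_left,
    imF_eq φ y τ (F := x.c.support ∪ y.c.support) Finset.subset_union_right,
    ← Finset.sum_sub_distrib, mul_div_cancel₀ _ (two_ne_zero)]
  refine (Finset.abs_sum_le_sum_abs _ _).trans (Finset.sum_le_sum fun v _ => ?_)
  rw [Finsupp.sub_apply]
  split_ifs
  · exact le_rfl
  · rw [sub_zero, abs_zero]
    exact abs_nonneg _

omit hK in
theorem imF_real [DecidableEq T] (x : Pt K) : imF φ x ∈ (imC K φ).real := by
  refine ⟨x.c.support.image φ, ⟨_, x.mem, rfl⟩, fun τ _ => ?_, fun τ hτ => ?_, ?_⟩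
  · refine Finset.sum_nonneg fun v _ => ?_
    split_ifs
    · exact x.nonneg v
    · exact le_rfl
  · refine Finset.sum_eq_zero fun v hv => ?_
    rw [if_neg]
    rintro rfl
    exact hτ (Finset.mem_image_of_mem φ hv)
  · unfold imF
    rw [Finset.sum_comm, ← x.sum_one]
    refine Finset.sum_congr rfl fun v hv => ?_
    rw [Finset.sum_ite_eq, if_pos (Finset.mem_image_of_mem φ hv)]

omit hK in
theorem imF_fib [DecidableEq T] {x y : Pt K} (h : imF φ x = imF φ y) {v : V}
    (hv : v ∈ x.c.support) : ∃ w ∈ y.c.support, φ w = φ v := by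
  by_contra hc
  have h1 : imF φ y (φ v) = 0 := by
    refine Finset.sum_eq_zero fun w hw => ?_
    rw [if_neg]
    exact fun he => hc ⟨w, hw, he⟩
  have h2 : x.c v ≤ imF φ x (φ v) := by
    have h3 := Finset.single_le_sum (f := fun w => if φ w = φ v then x.c w else 0)
      (fun w _ => by
        change 0 ≤ if φ w = φ v then x.c w else 0
        split_ifs
        · exact x.nonneg w
        · exact le_rfl) hv
    simp only [if_true] at h3
    exact h3
  have h4 := x.pos hv
  rw [h, h1] at h2
  linarith

end Aux

open Classical in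
theorem uw_le {T : Type u} (φ : V → T) (hφ : ∀ s ∈ K.faces, (s.image φ).card ≤ 2) (M : ℝ)
    (hM : ∀ v w, φ v = φ w → dist (vtx K v) (vtx K w) ≤ M) :
    UW 1 (Pt K) ≤ ENNReal.ofReal (M + 2) := by
  refine sInf_le ⟨T, imC K φ, ?_, imF φ, ?_, fun x => imF_real φ x, fun x y h => ?_⟩
  · rintro _ ⟨s, hs, rfl⟩
    exact hφ s hs
  · refine continuous_pi fun τ => ?_
    refine (LipschitzWith.of_dist_le_mul (K := 2) fun x y => ?_).continuous
    rw [Real.dist_eq]
    refine (imF_sub φ x y τ).trans ?_
    have := cdist_le_dist x y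
    change 2 * cdist x y ≤ 2 * dist x y
    linarith
  · obtain ⟨v, hv⟩ := x.exists_mem
    obtain ⟨w, hw, hwv⟩ := imF_fib φ h hv
    rw [edist_dist]
    refine ENNReal.ofReal_le_ofReal ?_
    have h1 := dist_le_one_of_adj (adj_vtx hv)
    have h2 := dist_le_one_of_adj (adj_vtx hw).symm
    have h3 := hM v w hwv.symm
    have h4 := dist_triangle4 x (vtx K v) (vtx K w) y
    linarith

end UWT
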