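import Pool.Agent.UWT.CovMain
import Pool.Agent.UWT.Upper
import Pool.Agent.UWT.Label
import Pool.Agent.UWT.SC

/-!
# UWT: the black box for the counterexample

Combinatorial data: a finite connected complex `K` on `V`, a locally finite connected complex `K'`
on `V'` all of whose cocycles are coboundaries, a simplicial covering `p : V' → V`, a map
`φ : V' → T` with at most two values on each face and with fibres of combinatorial diameter at most
`M`, and no labelling of the points of `Pt K` as in `exists_label` for `R`. Then `Pt K` is a
compact geodesic space, `Pt K'` is its universal cover, `UW 1 (Pt K') ≤ M + 2`,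
`UW 1 (Pt K) ≥ R`.
-/

set_option autoImplicit false

open Set Metric Topology UW1

namespace UWT

universe u

/-- A labelling of the points of a metric space as given by a map to a graph with fibres of
diameter less than `R`. -/
def HasLabel (X : Type u) [MetricSpace X] (R : ℝ) : Prop :=
  ∃ (T : Type u) (lam : X → T) (δ : ℝ), 0 < δ ∧
    (∀ x y z, dist x y < δ → dist y z < δ → dist x z < δ →
      lam x = lam y ∨ lam y = lam z ∨ lam x = lam z) ∧
    ∀ x y, lam x = lam y → dist x y < R

open Classical in
theorem main {V' V T : Type u} [Finite V] [Nonempty V'] (K' : Complex V') (K : Complex V)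
    [Conn K'] [Conn K] (hc : CohTrivial K') {p : V' → V}
    (hp : IsCov K' K p) (φ : V' → T) (hφ : ∀ s ∈ K'.faces, (s.image φ).card ≤ 2) (M : ℕ)
    (hM : ∀ v w, φ v = φ w → Near K' M v w) (R : ℝ) (hR : ¬ HasLabel (Pt K) R) :
    CompactSpace (Pt K) ∧ Geodesic (Pt K) ∧ SimplyConnectedSpace (Pt K') ∧ Geodesic (Pt K') ∧
      IsCoveringMap (push hp) ∧ LocIso (push hp) ∧ UW 1 (Pt K') ≤ ENNReal.ofReal (M + 2) ∧
      ENNReal.ofReal R ≤ UW 1 (Pt K) := by
  have := compactSpace_of_finite (K := K)
  refine ⟨inferInstance, geodesic_real, simplyConnected hc, geodesic_real,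
    isCoveringMap_push hp, locIso_push hp, ?_, ?_⟩
  · exact uw_le φ hφ M fun v w h => dist_le_of_near (hM v w h)
  · by_contra hlt
    exact hR (exists_label R (not_le.1 hlt))

end UWT
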