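import Pool.Agent.UWT.Topo

/-!
# UWT: convex combinations of two points of a common face
-/

set_option autoImplicit false

open Set Metric Topology UW1

namespace UWT

universe u

variable {V : Type u} {K : Complex V}

theorem mix_support {x y : Pt K} {t : ℝ} {s : Finset V} (h1 : x.c.support ⊆ s)
    (h2 : y.c.support ⊆ s) : ((1 - t) • x.c + t • y.c).support ⊆ s := by
  classical
  refine Finsupp.support_add.trans (Finset.union_subset ?_ ?_)
  · exact Finsupp.support_smul.trans h1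
  · exact Finsupp.support_smul.trans h2

/-- The point `(1 - t) x + t y` of a face which contains `x` and `y`. -/
noncomputable def mix (x y : Pt K) (h : Adj x y) (t : ℝ) (ht : t ∈ Icc (0 : ℝ) 1) : Pt K :=
  mkPt ((1 - t) • x.c + t • y.c) (by
    obtain ⟨s, hs, h1, h2⟩ := h
    refine K.down_closed s hs _ (mix_support h1 h2) ?_
    rw [Finset.nonempty_iff_ne_empty]
    intro h0
    have h3 : ∑ v ∈ s, ((1 - t) • x.c + t • y.c) v = 1 := by
      simp only [Finsupp.add_apply, Finsupp.smul_apply, smul_eq_mul, Finset.sum_add_distrib,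
        ← Finset.mul_sum]
      rw [x.sum_eq h1, y.sum_eq h2]
      ring
    rw [Finsupp.support_eq_empty.1 h0] at h3
    simp at h3) (fun v => by
    simp only [Finsupp.add_apply, Finsupp.smul_apply, smul_eq_mul]
    exact add_nonneg (mul_nonneg (by linarith [ht.2]) (x.nonneg v))
      (mul_nonneg ht.1 (y.nonneg v))) (by
    obtain ⟨s, hs, h1, h2⟩ := h
    rw [Finset.sum_subset (mix_support (t := t) h1 h2)
      fun v _ hv => Finsupp.notMem_support_iff.1 hv]
    simp only [Finsupp.add_apply, Finsupp.smul_apply, smul_eq_mul, Finset.sum_add_distrib,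
      ← Finset.mul_sum]
    rw [x.sum_eq h1, y.sum_eq h2]
    ring)

theorem mix_c (x y : Pt K) (h : Adj x y) (t : ℝ) (ht : t ∈ Icc (0 : ℝ) 1) :
    (mix x y h t ht).c = (1 - t) • x.c + t • y.c := mkPt_c _ _ _ _

theorem mix_zero (x y : Pt K) (h : Adj x y) (ht : (0 : ℝ) ∈ Icc (0 : ℝ) 1) :
    mix x y h 0 ht = x := by
  apply Pt.ext
  rw [mix_c]
  simp

theorem mix_one (x y : Pt K) (h : Adj x y) (ht : (1 : ℝ) ∈ Icc (0 : ℝ) 1) :
    mix x y h 1 ht = y := by
  apply Pt.ext
  rw [mix_c]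
  simp

theorem mix_self (x : Pt K) (h : Adj x x) (t : ℝ) (ht : t ∈ Icc (0 : ℝ) 1) :
    mix x x h t ht = x := by
  apply Pt.ext
  rw [mix_c, ← add_smul]
  simp

theorem mix_support_subset {x y : Pt K} (h : Adj x y) {t : ℝ} (ht : t ∈ Icc (0 : ℝ) 1)
    {s : Finset V} (h1 : x.c.support ⊆ s) (h2 : y.c.support ⊆ s) :
    (mix x y h t ht).c.support ⊆ s := by
  rw [mix_c]
  exact mix_support h1 h2

theorem mem_mix_support {x y : Pt K} (h : Adj x y) {t : ℝ} (ht : t ∈ Icc (0 : ℝ) 1) {v : V}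
    (h1 : v ∈ x.c.support) (h2 : v ∈ y.c.support) : v ∈ (mix x y h t ht).c.support := by
  rw [Finsupp.mem_support_iff, mix_c, Finsupp.add_apply, Finsupp.smul_apply, Finsupp.smul_apply,
    smul_eq_mul, smul_eq_mul]
  have a := x.pos h1
  have b := y.pos h2
  rcases eq_or_lt_of_le ht.1 with h0 | h0
  · rw [← h0]
    simpa using a.ne'
  · have := mul_nonneg (sub_nonneg.2 ht.2) a.le
    have := mul_pos h0 b
    linarith

theorem adj_mix_left {x y : Pt K} (h : Adj x y) {t : ℝ} (ht : t ∈ Icc (0 : ℝ) 1) :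
    Adj x (mix x y h t ht) := by
  obtain ⟨s, hs, h1, h2⟩ := h
  exact ⟨s, hs, h1, by rw [mix_c]; exact mix_support h1 h2⟩

theorem adj_mix_right {x y : Pt K} (h : Adj x y) {t : ℝ} (ht : t ∈ Icc (0 : ℝ) 1) :
    Adj (mix x y h t ht) y := by
  obtain ⟨s, hs, h1, h2⟩ := h
  exact ⟨s, hs, by rw [mix_c]; exact mix_support h1 h2, h2⟩

theorem adj_mix_mix {x y : Pt K} (h : Adj x y) {t t' : ℝ} (ht : t ∈ Icc (0 : ℝ) 1)
    (ht' : t' ∈ Icc (0 : ℝ) 1) : Adj (mix x y h t ht) (mix x y h t' ht') := by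
  obtain ⟨s, hs, h1, h2⟩ := h
  refine ⟨s, hs, ?_, ?_⟩ <;> rw [mix_c] <;> exact mix_support h1 h2

theorem cdist_mix {x y : Pt K} (h : Adj x y) {t t' : ℝ} (ht : t ∈ Icc (0 : ℝ) 1)
    (ht' : t' ∈ Icc (0 : ℝ) 1) :
    cdist (mix x y h t ht) (mix x y h t' ht') = |t - t'| * cdist x y := by
  unfold cdist
  rw [mix_c, mix_c, ← nrm_neg (x.c - y.c), ← nrm_smul]
  congr 1
  ext v
  simp only [Finsupp.sub_apply, Finsupp.add_apply, Finsupp.smul_apply, Finsupp.neg_apply,
    smul_eq_mul]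
  ring

/-- joint continuity estimate -/
theorem cdist_mix_le {x y x' y' : Pt K} (h : Adj x y) (h' : Adj x' y') {t t' : ℝ}
    (ht : t ∈ Icc (0 : ℝ) 1) (ht' : t' ∈ Icc (0 : ℝ) 1) :
    cdist (mix x y h t ht) (mix x' y' h' t' ht') ≤ cdist x x' + cdist y y' + |t - t'| := by
  have e : (mix x y h t ht).c - (mix x' y' h' t' ht').c =
      ((1 - t) • (x.c - x'.c) + t • (y.c - y'.c)) + (t' - t) • (x'.c - y'.c) := by
    ext v
    simp only [mix_c, Finsupp.sub_apply, Finsupp.add_apply, Finsupp.smul_apply, smul_eq_mul]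
    ring
  have h1 : cdist (mix x y h t ht) (mix x' y' h' t' ht') ≤
      |1 - t| * cdist x x' + |t| * cdist y y' + |t' - t| * cdist x' y' := by
    unfold cdist
    rw [e]
    refine (nrm_add_le _ _).trans ?_
    rw [nrm_smul]
    refine add_le_add_left ?_ _ |>.trans le_rfl
    refine (nrm_add_le _ _).trans ?_
    rw [nrm_smul, nrm_smul]
  rw [abs_of_nonneg (by linarith [ht.2] : 0 ≤ 1 - t), abs_of_nonneg ht.1] at h1
  have a := cdist_nonneg x x'
  have b := cdist_nonneg y y'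
  have c := cdist_le_one x' y'
  have d : |t' - t| * cdist x' y' ≤ |t - t'| := by
    rw [abs_sub_comm]
    exact mul_le_of_le_one_right (abs_nonneg _) c
  have e1 : (1 - t) * cdist x x' ≤ cdist x x' := mul_le_of_le_one_left a (by linarith [ht.1])
  have e2 : t * cdist y y' ≤ cdist y y' := mul_le_of_le_one_left b ht.2
  linarith

end UWT
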