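import Pool.Agent.UWT.Topo

/-!
# UWT package Square: the bilinear map of a square into a face with four corners

For `a b : ℝ` in `[0, 1]` and four vertices `A B C D` of a face (the corners of a square in cyclic
order) `sq` is the point `(1 - a)(1 - b) A + a (1 - b) B + a b C + (1 - a) b D`.

PROOF of `cdist_sq_le`. It is enough to change one coordinate at a time (triangle inequality). In
the first coordinate: the difference of the coordinate functions is
`(a - a') ((1 - b) (e_B - e_A) + b (e_C - e_D))` (with `e_A = Finsupp.single A 1`), and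
`nrm (e_B - e_A) ≤ 1`, so the norm is at most `|a - a'| ((1 - b) + b)` (`nrm_smul`, `nrm_add_le`);
similarly in the second coordinate. No distinctness of the corners is needed.
-/

set_option autoImplicit false

open Set Metric Topology UW1

namespace UWT

universe u

variable {V : Type u} {K : Complex V}

/-- The coordinates of the point of a square. -/
noncomputable def sqc (A B C D : V) (a b : ℝ) : V →₀ ℝ :=
  Finsupp.single A ((1 - a) * (1 - b)) + Finsupp.single B (a * (1 - b)) +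
    Finsupp.single C (a * b) + Finsupp.single D ((1 - a) * b)

open Classical in
private theorem sqc_apply (A B C D : V) (a b : ℝ) (v : V) :
    sqc A B C D a b v = (if A = v then (1 - a) * (1 - b) else 0) +
      (if B = v then a * (1 - b) else 0) + (if C = v then a * b else 0) +
      (if D = v then (1 - a) * b else 0) := by
  unfold sqc
  simp only [Finsupp.add_apply, Finsupp.single_apply]

private theorem sqc_support {A B C D : V} {a b : ℝ} {v : V}
    (hv : v ∈ (sqc A B C D a b).support) : v = A ∨ v = B ∨ v = C ∨ v = D := by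
  classical
  by_contra h
  push Not at h
  obtain ⟨h1, h2, h3, h4⟩ := h
  apply Finsupp.mem_support_iff.1 hv
  rw [sqc_apply, if_neg h1.symm, if_neg h2.symm, if_neg h3.symm, if_neg h4.symm]
  norm_num

private theorem sqc_subset {A B C D : V} {s : Finset V} (h : A ∈ s ∧ B ∈ s ∧ C ∈ s ∧ D ∈ s)
    (a b : ℝ) : (sqc A B C D a b).support ⊆ s := by
  intro v hv
  rcases sqc_support hv with rfl | rfl | rfl | rfl
  · exact h.1
  · exact h.2.1
  · exact h.2.2.1
  · exact h.2.2.2

private theorem sqc_sum {A B C D : V} {s : Finset V} (h : A ∈ s ∧ B ∈ s ∧ C ∈ s ∧ D ∈ s)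
    (a b : ℝ) : ∑ v ∈ s, sqc A B C D a b v = 1 := by
  classical
  simp only [sqc_apply, Finset.sum_add_distrib, Finset.sum_ite_eq, h.1, h.2.1, h.2.2.1,
    h.2.2.2, if_true]
  ring

theorem sqc_mem {A B C D : V} (h : ∃ s ∈ K.faces, A ∈ s ∧ B ∈ s ∧ C ∈ s ∧ D ∈ s) {a b : ℝ}
    (ha : a ∈ Icc (0 : ℝ) 1) (hb : b ∈ Icc (0 : ℝ) 1) :
    (sqc A B C D a b).support ∈ K.faces ∧ (∀ v, 0 ≤ sqc A B C D a b v) ∧
      ∑ v ∈ (sqc A B C D a b).support, sqc A B C D a b v = 1 := by
  classical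
  obtain ⟨s, hs, h1⟩ := h
  have hsum : ∑ v ∈ (sqc A B C D a b).support, sqc A B C D a b v = 1 := by
    rw [← sqc_sum h1 a b]
    exact Finset.sum_subset (sqc_subset h1 a b)
      fun v _ hv => Finsupp.notMem_support_iff.1 hv
  refine ⟨K.down_closed s hs _ (sqc_subset h1 a b) ?_, fun v => ?_, hsum⟩
  · rw [Finset.nonempty_iff_ne_empty]
    intro h2
    rw [h2, Finset.sum_empty] at hsum
    exact zero_ne_one hsum
  · obtain ⟨ha0, ha1⟩ := ha
    obtain ⟨hb0, hb1⟩ := hb
    have ha2 : 0 ≤ 1 - a := by linarith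
    have hb2 : 0 ≤ 1 - b := by linarith
    rw [sqc_apply]
    have k : ∀ (p : Prop) [Decidable p] (x : ℝ), 0 ≤ x → 0 ≤ if p then x else 0 := by
      intro p _ x hx
      split_ifs
      · exact hx
      · exact le_rfl
    exact add_nonneg (add_nonneg (add_nonneg (k _ _ (mul_nonneg ha2 hb2))
      (k _ _ (mul_nonneg ha0 hb2))) (k _ _ (mul_nonneg ha0 hb0))) (k _ _ (mul_nonneg ha2 hb0))

/-- The point with coordinates `a`, `b` of the square with corners `A`, `B`, `C`, `D`. -/
noncomputable def sq (A B C D : V) (h : ∃ s ∈ K.faces, A ∈ s ∧ B ∈ s ∧ C ∈ s ∧ D ∈ s) (a b : ℝ)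
    (ha : a ∈ Icc (0 : ℝ) 1) (hb : b ∈ Icc (0 : ℝ) 1) : Pt K :=
  mkPt (sqc A B C D a b) (sqc_mem h ha hb).1 (sqc_mem h ha hb).2.1 (sqc_mem h ha hb).2.2

theorem sq_c (A B C D : V) (h : ∃ s ∈ K.faces, A ∈ s ∧ B ∈ s ∧ C ∈ s ∧ D ∈ s) (a b : ℝ)
    (ha : a ∈ Icc (0 : ℝ) 1) (hb : b ∈ Icc (0 : ℝ) 1) :
    (sq (K := K) A B C D h a b ha hb).c = sqc A B C D a b := mkPt_c _ _ _ _

theorem sq_support (A B C D : V) (h : ∃ s ∈ K.faces, A ∈ s ∧ B ∈ s ∧ C ∈ s ∧ D ∈ s) (a b : ℝ)
    (ha : a ∈ Icc (0 : ℝ) 1) (hb : b ∈ Icc (0 : ℝ) 1) {v : V}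
    (hv : v ∈ (sq (K := K) A B C D h a b ha hb).c.support) : v = A ∨ v = B ∨ v = C ∨ v = D := by
  rw [sq_c] at hv
  exact sqc_support hv

private theorem nrm_single (v : V) : nrm (Finsupp.single v (1 : ℝ)) = 1 / 2 := by
  unfold nrm
  rw [Finsupp.support_single v one_ne_zero, Finset.sum_singleton, Finsupp.single_eq_same, abs_one]

private theorem nrm_edge (v w : V) :
    nrm (Finsupp.single v (1 : ℝ) - Finsupp.single w 1) ≤ 1 := by
  have h := nrm_add_le (Finsupp.single v (1 : ℝ)) (-Finsupp.single w 1)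
  rw [nrm_neg, nrm_single, nrm_single, ← sub_eq_add_neg] at h
  linarith

private theorem nrm_comb (b c : ℝ) (hb : b ∈ Icc (0 : ℝ) 1) (v w v' w' : V) :
    nrm (c • ((1 - b) • (Finsupp.single v (1 : ℝ) - Finsupp.single w 1) +
      b • (Finsupp.single v' (1 : ℝ) - Finsupp.single w' 1))) ≤ |c| := by
  rw [nrm_smul]
  have h1 := nrm_add_le ((1 - b) • (Finsupp.single v (1 : ℝ) - Finsupp.single w 1))
    (b • (Finsupp.single v' (1 : ℝ) - Finsupp.single w' 1))
  rw [nrm_smul, nrm_smul, abs_of_nonneg (sub_nonneg.2 hb.2), abs_of_nonneg hb.1] at h1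
  have h2 := mul_le_mul_of_nonneg_left (nrm_edge v w) (sub_nonneg.2 hb.2)
  have h3 := mul_le_mul_of_nonneg_left (nrm_edge v' w') hb.1
  exact mul_le_of_le_one_right (abs_nonneg c) (by linarith)

private theorem sqc_left (A B C D : V) (a a' b : ℝ) :
    sqc A B C D a b - sqc A B C D a' b =
      (a - a') • ((1 - b) • (Finsupp.single B (1 : ℝ) - Finsupp.single A 1) +
        b • (Finsupp.single C (1 : ℝ) - Finsupp.single D 1)) := by
  classical
  ext v
  simp only [Finsupp.sub_apply, Finsupp.add_apply, Finsupp.smul_apply, smul_eq_mul, sqc_apply,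
    Finsupp.single_apply]
  split_ifs <;> ring

private theorem sqc_right (A B C D : V) (a b b' : ℝ) :
    sqc A B C D a b - sqc A B C D a b' =
      (b - b') • ((1 - a) • (Finsupp.single D (1 : ℝ) - Finsupp.single A 1) +
        a • (Finsupp.single C (1 : ℝ) - Finsupp.single B 1)) := by
  classical
  ext v
  simp only [Finsupp.sub_apply, Finsupp.add_apply, Finsupp.smul_apply, smul_eq_mul, sqc_apply,
    Finsupp.single_apply]
  split_ifs <;> ring

theorem dist_sq_le [hK : Conn K] (A B C D : V)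
    (h : ∃ s ∈ K.faces, A ∈ s ∧ B ∈ s ∧ C ∈ s ∧ D ∈ s) (a b a' b' : ℝ)
    (ha : a ∈ Icc (0 : ℝ) 1) (hb : b ∈ Icc (0 : ℝ) 1)
    (ha' : a' ∈ Icc (0 : ℝ) 1) (hb' : b' ∈ Icc (0 : ℝ) 1) :
    dist (sq (K := K) A B C D h a b ha hb) (sq A B C D h a' b' ha' hb') ≤
      |a - a'| + |b - b'| := by
  obtain ⟨s, hs, h1⟩ := id h
  have hadj : Adj (sq (K := K) A B C D h a b ha hb) (sq A B C D h a' b' ha' hb') :=
    ⟨s, hs, by rw [sq_c]; exact sqc_subset h1 a b, by rw [sq_c]; exact sqc_subset h1 a' b'⟩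
  rw [dist_eq_of_adj hadj]
  unfold cdist
  rw [sq_c, sq_c]
  refine (nrm_sub_le _ (sqc A B C D a' b) _).trans (add_le_add ?_ ?_)
  · rw [sqc_left]
    exact nrm_comb _ _ hb _ _ _ _
  · rw [sqc_right]
    exact nrm_comb _ _ ha' _ _ _ _

end UWT
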