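import Pool.Agent.UWT.Hom

/-!
# UWT package Star: paths in the open star of a vertex

PROOF of `homotopic_of_star`. Let `w = vtx K v`; all `p u` are adjacent to `w` (`adj_vtx`). The map
`G (t, u) = mix (p u) w _ t` on `I × I` is continuous (`continuous_of_cdist` with `cdist_mix_le`:
`cdist (G (t, u)) (G (t', u')) ≤ cdist (p u) (p u') + 0 + |t - t'|` and
`cdist ≤ dist`). It is a `ContinuousMap.Homotopy` from `p` (as an element of `C(I, Pt K)`) to the
constant map `w`. Apply `Path.Homotopic.map_trans_evalAt` to this homotopy and the identity path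
`0 → 1` of `I`: `p.trans (seg y w)` is homotopic to `(seg x w).trans (refl w)` (the evaluation
paths are `t ↦ mix x w _ t`, i.e. `seg`; `Path.ext` up to casts; alternatively build the
homotopy by hand). Hence `p ≃ (p.trans (seg y w)).trans (seg y w).symm ≃
(seg x w).trans (seg y w).symm`, and `(seg y w).symm = seg w y` up to `homotopic_of_face` (face
`y.c.support`).
-/

set_option autoImplicit false

open Set Metric Topology UW1 unitInterval

namespace UWT

universe u

variable {V : Type u} {K : Complex V} [hK : Conn K]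

private theorem starCont {v : V} (g : C(I, Pt K)) (hp : ∀ t, v ∈ (g t).c.support) :
    Continuous fun q : I × I => mix (g q.2) (vtx K v) (adj_vtx (hp q.2)) q.1 q.1.2 := by
  refine continuous_of_cdist _ fun z ε hε => ?_
  have h1 : ∀ z' : I × I, cdist (mix (g z.2) (vtx K v) (adj_vtx (hp z.2)) z.1 z.1.2)
      (mix (g z'.2) (vtx K v) (adj_vtx (hp z'.2)) z'.1 z'.1.2) ≤
        dist (g z.2) (g z'.2) + |(z.1 : ℝ) - z'.1| := by
    intro z'
    refine (cdist_mix_le _ _ z.1.2 z'.1.2).trans ?_
    rw [cdist_self, add_zero]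
    have := cdist_le_dist (g z.2) (g z'.2)
    linarith
  have h2 : Continuous fun z' : I × I => dist (g z.2) (g z'.2) + |(z.1 : ℝ) - z'.1| := by
    fun_prop
  have h3 := (h2.tendsto z).eventually (gt_mem_nhds (a := ε) (by simpa using hε))
  filter_upwards [h3] with z' hz'
  exact (h1 z').trans_lt hz'

private theorem starAux {v : V} (g : C(I, Pt K)) (hp : ∀ t, v ∈ (g t).c.support) :
    (⟨g, rfl, rfl⟩ : Path (g 0) (g 1)).Homotopic
      ((seg (g 0) (vtx K v) (adj_vtx (hp 0))).trans
        (seg (vtx K v) (g 1) (adj_vtx (hp 1)).symm)) := by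
  let F : ContinuousMap.Homotopy g (ContinuousMap.const I (vtx K v)) :=
    { toFun := fun q => mix (g q.2) (vtx K v) (adj_vtx (hp q.2)) q.1 q.1.2
      continuous_toFun := starCont g hp
      map_zero_left := fun u => mix_zero _ _ _ _
      map_one_left := fun u => mix_one _ _ _ _ }
  have h1 := Path.Homotopic.map_trans_evalAt F Path.id
  have e1 : Path.id.map (map_continuous g) = (⟨g, rfl, rfl⟩ : Path (g 0) (g 1)) := by
    ext t
    rfl
  have e2 : F.evalAt 1 = seg (g 1) (vtx K v) (adj_vtx (hp 1)) := by
    ext t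
    rfl
  have e3 : F.evalAt 0 = seg (g 0) (vtx K v) (adj_vtx (hp 0)) := by
    ext t
    rfl
  have e4 : Path.id.map (map_continuous (ContinuousMap.const I (vtx K v))) =
      Path.refl (vtx K v) := by
    ext t
    rfl
  rw [e1, e2, e3, e4] at h1
  have h1' : ((⟨g, rfl, rfl⟩ : Path (g 0) (g 1)).trans
      (seg (g 1) (vtx K v) (adj_vtx (hp 1)))).Homotopic
        ((seg (g 0) (vtx K v) (adj_vtx (hp 0))).trans (Path.refl (vtx K v))) := h1
  clear h1
  have h2 : (seg (g 1) (vtx K v) (adj_vtx (hp 1))).symm.Homotopic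
      (seg (vtx K v) (g 1) (adj_vtx (hp 1)).symm) := by
    refine homotopic_of_face (g 1).mem _ _ (fun t => ?_) fun t => ?_
    · rw [Path.symm_apply]
      refine seg_support _ subset_rfl ?_ _
      rw [vtx_support]
      exact Finset.singleton_subset_iff.2 (hp 1)
    · refine seg_support _ ?_ subset_rfl _
      rw [vtx_support]
      exact Finset.singleton_subset_iff.2 (hp 1)
  rw [← Path.Homotopic.Quotient.eq] at h1' h2 ⊢
  rw [Path.Homotopic.Quotient.mk_trans, Path.Homotopic.Quotient.mk_trans,
    Path.Homotopic.Quotient.mk_refl, Path.Homotopic.Quotient.trans_refl] at h1'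
  rw [Path.Homotopic.Quotient.mk_trans, ← h1', ← h2, Path.Homotopic.Quotient.mk_symm,
    Path.Homotopic.Quotient.trans_assoc, Path.Homotopic.Quotient.trans_symm,
    Path.Homotopic.Quotient.trans_refl]

theorem homotopic_of_star {v : V} {x y : Pt K} (hx : v ∈ x.c.support) (hy : v ∈ y.c.support)
    (p : Path x y) (hp : ∀ t, v ∈ (p t).c.support) :
    p.Homotopic ((seg x (vtx K v) (adj_vtx hx)).trans
      (seg (vtx K v) y (adj_vtx hy).symm)) := by
  obtain ⟨g, h0, h1⟩ := p
  subst h0 h1
  exact starAux g hp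

end UWT
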