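import Pool.Agent.UWT.Defs

/-!
# UWT package Topo: the topology of the realization

PROOF of `support_subset`. If `v ∈ x.c.support` and `v ∉ y.c.support` then
`x.c v = |x.c v - y.c v| ≤ 2 * cdist x y` (`abs_sub_le_cdist`), a contradiction.

PROOF of `exists_radius`. Let `m` be the minimum of the numbers `x.c v`, `v ∈ x.c.support` (a
nonempty finite set, all are positive: `Pt.pos`), `r = m / 2` (`Finset.exists_min_image`). Use
`support_subset`, `adj_of_subset` and `dist_eq_of_adj`.

PROOF of `continuous_of_cdist`. At `z` with `ε > 0` take `r` from `exists_radius (f z)` and use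
the hypothesis with `min r ε` (`Metric.continuous_iff`-like: `continuous_iff_continuousAt`,
`Metric.tendsto_nhds`, `dist_comm`).

PROOF of `continuous_coord`. `|x.c v - y.c v| ≤ 2 * cdist x y ≤ 2 * dist x y`.

PROOF of `continuous_of_finite`. `cdist (f z) (f z') = (∑ v ∈ F, |(f z).c v - (f z').c v|) / 2`
(`nrm_eq`, the support of a difference is in the union of the supports), and each summand tends
to zero as `z' → z`; use `continuous_of_cdist`.
-/

set_option autoImplicit false

open Set Metric Topology UW1

namespace UWT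

universe u

variable {V : Type u} {K : Complex V}

theorem support_subset {x y : Pt K} (h : ∀ v ∈ x.c.support, 2 * cdist x y < x.c v) :
    x.c.support ⊆ y.c.support := by
  intro v hv
  by_contra hv'
  have h1 := h v hv
  have h2 := abs_sub_le_cdist x y v
  have h3 : y.c v = 0 := Finsupp.notMem_support_iff.1 hv'
  rw [h3, sub_zero, abs_of_nonneg (x.nonneg v)] at h2
  linarith

variable [hK : Conn K]

theorem exists_radius (x : Pt K) : ∃ r > 0, ∀ y : Pt K, cdist x y < r →
    x.c.support ⊆ y.c.support ∧ dist x y = cdist x y := by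
  obtain ⟨v0, hv0⟩ := x.exists_mem
  obtain ⟨w, hw, hmin⟩ := Finset.exists_min_image x.c.support (fun v => x.c v) ⟨v0, hv0⟩
  refine ⟨x.c w / 2, half_pos (x.pos hw), fun y hy => ?_⟩
  have h1 : x.c.support ⊆ y.c.support := support_subset fun v hv => by
    have h2 : x.c w ≤ x.c v := hmin v hv
    linarith
  exact ⟨h1, dist_eq_of_adj (adj_of_subset h1)⟩

theorem continuous_of_cdist {Z : Type*} [TopologicalSpace Z] (f : Z → Pt K)
    (h : ∀ z, ∀ ε > 0, ∀ᶠ z' in 𝓝 z, cdist (f z) (f z') < ε) : Continuous f := by
  rw [continuous_iff_continuousAt]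
  intro z
  rw [ContinuousAt, Metric.tendsto_nhds]
  intro ε hε
  obtain ⟨r, hr, hr'⟩ := exists_radius (f z)
  filter_upwards [h z (min r ε) (lt_min hr hε)] with z' hz'
  rw [dist_comm, (hr' (f z') (hz'.trans_le (min_le_left _ _))).2]
  exact hz'.trans_le (min_le_right _ _)

theorem continuous_coord (v : V) : Continuous fun x : Pt K => x.c v := by
  rw [Metric.continuous_iff]
  intro x ε hε
  refine ⟨ε / 2, half_pos hε, fun y hy => ?_⟩
  have h1 := abs_sub_le_cdist y x v
  have h2 := cdist_le_dist y x
  rw [Real.dist_eq]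
  linarith

theorem continuous_of_finite {Z : Type*} [TopologicalSpace Z] (f : Z → Pt K) (F : Finset V)
    (hF : ∀ z, (f z).c.support ⊆ F) (h : ∀ v ∈ F, Continuous fun z => (f z).c v) :
    Continuous f := by
  classical
  refine continuous_of_cdist f fun z ε hε => ?_
  have h1 : ∀ z', cdist (f z) (f z') = (∑ v ∈ F, |(f z).c v - (f z').c v|) / 2 := by
    intro z'
    unfold cdist
    rw [nrm_eq _ (s := F) (Finsupp.support_sub.trans (Finset.union_subset (hF z) (hF z')))]
    rfl
  have h2 : Continuous fun z' => (∑ v ∈ F, |(f z).c v - (f z').c v|) / 2 := by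
    refine (continuous_finsetSum _ fun v hv => ?_).div_const _
    exact (continuous_const.sub (h v hv)).abs
  have h3 : (∑ v ∈ F, |(f z).c v - (f z).c v|) / 2 < ε := by simpa using hε
  filter_upwards [h2.continuousAt.eventually_lt_const h3] with z' hz'
  rw [h1]
  exact hz'

end UWT
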